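import Pool.Agent.P.MP_9321be_ag.DG.Kil
import Pool.Agent.P.MP_9321be_ag.ND.ZLink

/-!
Systems of linear combinations of monomials in disjoint sets of variables: definitions and tools.
-/

set_option linter.unusedSectionVars false

namespace Pool.Agent.P.MP_9321be_ag.DG

open ND Set Module

/-- The value of a monomial. -/
def mon {σ R : Type} [Fintype σ] [CommMonoid R] (e : σ →₀ ℕ) (x : σ → R) : R := ∏ s, x s ^ e s

section Mon

variable {σ R : Type} [Fintype σ] [CommMonoid R] {e : σ →₀ ℕ} {x x' : σ → R}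

theorem mon_add (e e' : σ →₀ ℕ) (x : σ → R) : mon (e + e') x = mon e x * mon e' x := by
  simp [mon, pow_add, Finset.prod_mul_distrib]

theorem mon_single (s : σ) (k : ℕ) (x : σ → R) : mon (Finsupp.single s k) x = x s ^ k := by
  classical
  rw [mon, Finset.prod_eq_single s (fun b _ hb => by simp [hb]) (by simp), Finsupp.single_eq_same]

theorem mon_congr (h : ∀ s, e s ≠ 0 → x s = x' s) : mon e x = mon e x' :=
  Finset.prod_congr rfl fun s _ => by
    by_cases hs : e s = 0
    · simp [hs]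
    · rw [h s hs]

theorem mon_mul (e : σ →₀ ℕ) (x x' : σ → R) : mon e (fun s => x s * x' s) = mon e x * mon e x' := by
  simp [mon, mul_pow, Finset.prod_mul_distrib]

theorem mon_pow (e : σ →₀ ℕ) (t : R) (v : σ → ℕ) :
    mon e (fun s => t ^ v s) = t ^ ∑ s, v s * e s := by
  simp [mon, ← pow_mul, Finset.prod_pow_eq_pow_sum]

theorem map_mon {R' F : Type} [CommMonoid R'] [FunLike F R R'] [MonoidHomClass F R R'] (f : F)
    (e : σ →₀ ℕ) (x : σ → R) : f (mon e x) = mon e fun s => f (x s) := by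
  simp [mon]

end Mon

section Coef

variable {n : ℕ}

/-- The coefficient of `t ^ e` of a multiple of `t ^ e`. -/
noncomputable def cf (n e : ℕ) : TR n →ₗ[ℂ] ℂ :=
  (eps n).toLinearMap ∘ₗ (exists_div (tt n ^ e)).choose

theorem cf_mul {e : ℕ} (h : e ≤ n) (μ : TR n) : cf n e (tt n ^ e * μ) = eps n μ := by
  have h1 := (exists_div (tt n ^ e)).choose_spec _ (dvd_mul_right _ μ)
  have h2 := (cancel (k := e) (m := 1) (n := n) (by omega)
    ((exists_div (tt n ^ e)).choose (tt n ^ e * μ) - μ)).1 (by rw [mul_sub, h1]; simp)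
  rw [pow_one, ← eps_eq_zero, map_sub, sub_eq_zero] at h2
  exact h2

theorem top_mul (μ : TR n) : tt n ^ n * μ = eps n μ • tt n ^ n := by
  obtain ⟨z, hz⟩ := (eps_eq_zero (μ - eps n μ • 1)).1 (by simp)
  have : tt n ^ n * (μ - eps n μ • 1) = 0 := by rw [hz, ← mul_assoc, ← pow_succ, tt_pow, zero_mul]
  rwa [mul_sub, mul_smul_comm, mul_one, sub_eq_zero] at this

theorem cf_top : cf n n (tt n ^ n) = 1 := by simpa using cf_mul (le_refl n) 1

theorem eq_cf {y : TR n} (h : tt n ^ n ∣ y) : y = cf n n y • tt n ^ n := by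
  obtain ⟨μ, rfl⟩ := h
  rw [cf_mul le_rfl, top_mul]

theorem dvd_succ_iff {y : TR n} (h : tt n ^ n ∣ y) : tt n ^ (n + 1) ∣ y ↔ cf n n y = 0 := by
  rw [tt_pow, zero_dvd_iff]
  exact ⟨fun e => by rw [e, map_zero], fun e => by rw [eq_cf h, e, zero_smul]⟩

theorem trunc_tt {m : ℕ} (h : m ≤ n) : Link.trunc h (tt n) = tt m := Link.trunc_mk h _

theorem pr_trunc {σ : Type} [Finite σ] {m : ℕ} (h : m ≤ n) {Φ : (σ → TR m) → Prop}
    (hΦ : Cons {x | Φ x}) : pr {x : σ → TR n | Φ fun s => Link.trunc h (x s)} = pr {x | Φ x} :=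
  pr_surj (LinearMap.pi fun i => (Link.trunc h).toLinearMap ∘ₗ LinearMap.proj i) (fun y => by
    choose q hq using fun i => mkT_surjective (y i)
    exact ⟨fun i => mkT _ (q i), funext fun i => (Link.trunc_mk h _).trans (hq i)⟩) hΦ

end Coef

section Tools

variable {E : Type} [AddCommGroup E] [Module ℂ E] {ι : Type} [Fintype ι]

theorem cfm_mon {σ : Type} [Fintype σ] {n : ℕ} (e : σ →₀ ℕ) {φ : E → σ → TR n}
    (h : ∀ s, CFM fun x => φ x s) : CFM fun x => mon e (φ x) := by
  have := CFM.aeval h (MvPolynomial.monomial e 1)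
  simpa [MvPolynomial.aeval_monomial, Finsupp.prod_fintype, mon] using this

theorem Cons.iff {P Q : E → Prop} (h : Cons {x | P x}) (h' : Cons {x | Q x}) :
    Cons {x | P x ↔ Q x} := by
  simpa only [iff_iff_implies_and_implies] using (h.imp h').and (h'.imp h)

/-- A condition on the pattern of finitely many constructible conditions is constructible. -/
theorem cons_pattern {p : ι → E → Prop} (h : ∀ k, Cons {x | p k x}) (Ξ : Set ι → Prop) :
    Cons {x | Ξ {k | p k x}} := by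
  classical
  have := cons_exists_mem (Finset.univ : Finset (Set ι)) (C := fun S x => Ξ S ∧ ∀ k, k ∈ S ↔ p k x)
    fun S _ => (cons_const _).and (cons_forall fun k => Cons.iff (cons_const _) (h k))
  convert this using 3 with x
  exact ⟨fun h => ⟨_, Finset.mem_univ _, h, fun _ => Iff.rfl⟩,
    fun ⟨S, _, h1, h2⟩ => (Set.ext h2 : S = _) ▸ h1⟩

variable [FiniteDimensional ℂ E]

/-- Independence of events that depend on complementary sets of variables. -/
theorem pr_mul {σ A : Type} [Finite σ] [AddCommGroup A] [Module ℂ A] [FiniteDimensional ℂ A]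
    (G : σ → Prop) {Φ Ψ : (σ → A) → Prop} (hΦ : Cons {x | Φ x}) (hΨ : Cons {x | Ψ x})
    (h1 : ∀ x y, (∀ s, G s → x s = y s) → Φ x → Φ y)
    (h2 : ∀ x y, (∀ s, ¬ G s → x s = y s) → Ψ x → Ψ y) :
    pr {x | Φ x ∧ Ψ x} = pr {x | Φ x} * pr {x | Ψ x} := by
  classical
  let π : (σ → A) →ₗ[ℂ] {s // G s} → A := LinearMap.funLeft ℂ A Subtype.val
  let j : ({s // G s} → A) →ₗ[ℂ] σ → A := LinearMap.pi fun s =>
    if h : G s then LinearMap.proj ⟨s, h⟩ else 0
  have hj : ∀ z s, j z s = if h : G s then z ⟨s, h⟩ else 0 := fun z s => by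
    by_cases h : G s <;> simp [j, h]
  have hπ : ∀ z, π (j z) = z := fun z => funext fun s => by simp [π, hj, s.2]
  have e : ∀ x, Φ (j (π x)) ↔ Φ x := fun x =>
    ⟨h1 _ _ fun s hs => by simp [hj, hs, π], h1 _ _ fun s hs => by simp [hj, hs, π]⟩
  have hD := hΦ.preimage (CFM.lin j)
  have h3 := pr_indep π j hπ hD hΨ fun x z => h2 _ _ fun s hs => by simp [hj, hs]
  rw [← pr_surj π (fun z => ⟨_, hπ z⟩) hD] at h3
  exact (pr_congr fun x => and_congr_left' (e x).symm).trans
    (h3.trans (congrArg (· * _) (pr_congr e)))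

/-- Flows that translate a vector valued function. -/
theorem pr_vflow {V : Type} [AddCommGroup V] [Module ℂ V] [FiniteDimensional ℂ V] {Φ : E → Prop}
    (hΦ : Cons {x | Φ x}) {φ : E → V} (hφ : CFM φ) (c : ι → V) (S : Finset ι)
    (h : ∀ k ∈ S, ∃ v : E → E, CFM v ∧ ∀ x (r : ℂ), Φ x → Φ (x + r • v x) ∧
      v (x + r • v x) = v x ∧ φ (x + r • v x) = φ x + r • c k) :
    pr {x | φ x = 0 ∧ Φ x} = lefInv ^ finrank ℂ (Submodule.span ℂ (c '' S)) *
      pr {x | φ x ∈ Submodule.span ℂ (c '' S) ∧ Φ x} := by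
  classical
  induction S using Finset.induction_on with
  | empty => rw [Finset.coe_empty, image_empty, Submodule.span_empty, finrank_bot]; simp
  | insert k S hk ih =>
    rw [ih fun i hi => h i (Finset.mem_insert_of_mem hi), Finset.coe_insert, image_insert_eq]
    by_cases h1 : c k ∈ Submodule.span ℂ (c '' S)
    · rw [Submodule.span_insert_eq_span h1]
    obtain ⟨l, l1, l2⟩ := Submodule.exists_le_ker_of_notMem h1
    obtain ⟨v, hv, H⟩ := h k (Finset.mem_insert_self _ _)
    have h2 := pr_flow (((cons_submodule (Submodule.span ℂ (insert (c k) (c '' S)))).preimage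
      hφ).and hΦ) (hφ ((l (c k))⁻¹ • l)) hv (fun x r hx => ⟨by
        rw [(H x r hx.2).2.2]
        exact add_mem hx.1 (Submodule.smul_mem _ _ (Submodule.subset_span (mem_insert _ _))),
        (H x r hx.2).1⟩) (fun x r hx => (H x r hx.2).2.1) fun x r hx => by
        simp [(H x r hx.2).2.2, mul_add, mul_comm r, l1]
    have h3 : finrank ℂ (Submodule.span ℂ (insert (c k) (c '' S))) =
        finrank ℂ (Submodule.span ℂ (c '' S)) + 1 := by
      have h4 := Submodule.finrank_sup_add_finrank_inf_eq (Submodule.span ℂ {c k})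
        (Submodule.span ℂ (c '' S))
      rw [← Submodule.span_insert, finrank_span_singleton (fun e => l1 (by rw [e, map_zero])),
        ((Submodule.disjoint_span_singleton.2 fun e => (h1 e).elim).symm).eq_bot, finrank_bot] at h4
      omega
    rw [h3, pow_succ, mul_assoc]
    congr 1
    refine (pr_congr fun x => ?_).trans h2
    refine ⟨fun hx => ⟨by simp [show l (φ x) = 0 from l2 hx.1],
      Submodule.span_mono (subset_insert _ _) hx.1, hx.2⟩, fun ⟨a1, a2, a3⟩ => ⟨?_, a3⟩⟩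
    obtain ⟨r, z, hz, e⟩ := Submodule.mem_span_insert.1 a2
    have : r = 0 := by simpa [e, show l z = 0 from l2 hz, l1] using a1
    rwa [e, this, zero_smul, zero_add]

end Tools

/-- Monomials `a i` in disjoint sets of variables with coefficient vectors `c i`; `d i` is `a i`
without one variable of exponent one, if there is one. -/
structure Dat (σ ι J : Type) where
  a : ι → σ →₀ ℕ
  d : ι → σ →₀ ℕ
  c : ι → J → ℂ
  rig : ι → Prop
  ne : ∀ i, a i ≠ 0
  dis : ∀ i k s, a i s ≠ 0 → a k s ≠ 0 → i = k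
  h1 : ∀ i, rig i → d i = a i ∧ ∀ s, a i s ≠ 1
  h2 : ∀ i, ¬ rig i → ∃ s, d i s = 0 ∧ a i = d i + Finsupp.single s 1

/-- Multiplication by the uniformiser. -/
noncomputable def tm {σ : Type} {n : ℕ} (y : σ → TR n) : σ → TR n := fun s => tt n * y s

namespace Dat

variable {σ ι J : Type} [Fintype σ] [Fintype ι] [DecidableEq ι] [Fintype J] (D : Dat σ ι J) {n : ℕ}

/-- The partial sums of the equations. -/
noncomputable def g (F : Finset ι) (x : σ → TR n) (j : J) : TR n :=
  ∑ i ∈ F, D.c i j • mon (D.a i) x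

/-- The span of some coefficient vectors. -/
noncomputable def W (S : Set ι) : Submodule ℂ (J → ℂ) := Submodule.span ℂ (D.c '' S)

/-- The rank. -/
noncomputable def rk (S : Set ι) : ℕ := finrank ℂ (D.W S)

/-- The monomials that are active at level `L`. -/
def act (L : ℕ) (F : Finset ι) (x : σ → TR n) : Set ι := {k | k ∈ F ∧ ¬ tt n ^ L ∣ mon (D.d k) x}

/-- The equations in `F` hold up to level `L`, and the active monomials span. -/
def EvH (L : ℕ) (F : Finset ι) (x : σ → TR n) : Prop :=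
  (∀ j, tt n ^ L ∣ D.g F x j) ∧ ∀ i ∈ F, D.c i ∈ D.W (D.act L F x)

/-- The measure of `EvH`. -/
noncomputable def H (F : Finset ι) (n : ℕ) : MM := pr {y : σ → TR n | D.EvH n F (tm y)}

/-- `F` is closed in `F₀`. -/
def Fl (F₀ F : Finset ι) : Prop := F ⊆ F₀ ∧ ∀ i ∈ F₀, D.c i ∈ D.W F → i ∈ F

/-- The sets that occur. -/
def Good (F : Finset ι) : Prop := ∃ (S : Set ι) (z : ι → ℂ), S ⊆ F ∧ (∀ i ∈ F, D.c i ∈ D.W S) ∧
  ∑ i ∈ F, z i • D.c i = 0 ∧ ∀ i ∈ S, D.rig i → z i ≠ 0

/-- The top coefficients. -/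
noncomputable def zc (G : Finset ι) (x : σ → TR n) (i : ι) : ℂ :=
  if i ∈ G then cf n n (mon (D.d i) x) else 0

/-- The monomials in `G` are not active, with a condition on their top coefficients. -/
def EvM (G : Finset ι) (Θ : (ι → ℂ) → Prop) (x : σ → TR n) : Prop :=
  (∀ i ∈ G, tt n ^ n ∣ mon (D.d i) x) ∧ Θ (D.zc G x)

/-- The measure of `EvM`. -/
noncomputable def B (G : Finset ι) (Θ : (ι → ℂ) → Prop) (n : ℕ) : MM :=
  pr {y : σ → TR n | D.EvM G Θ (tm y)}

/-- The exponents that come from the monomials in `G`. -/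
def Sl (N : ℕ) (G : Finset ι) (m : ℕ) : Prop :=
  ∃ b : ι → ℕ, (∀ i ∈ G, b i ≠ 0 ∧ ∃ s, D.d i s = b i) ∧ m = ∑ i ∈ G, N / b i

/-- The exponents of the measures `H`. -/
def SH (K : ι → Prop) (N : ℕ) (F : Finset ι) (m : ℕ) : Prop :=
  ∃ F' m', D.Fl F F' ∧ (D.Good F' ∧ ∀ i ∈ F', K i) ∧ D.Sl N (F \ F') m' ∧ m = D.rk F' * N + m'

theorem d_le (i : ι) (s : σ) : D.d i s ≤ D.a i s := by
  by_cases h : D.rig i
  · rw [(D.h1 i h).1]
  · obtain ⟨s', -, e⟩ := D.h2 i h
    simp [e]

theorem d_dvd {R : Type} [CommMonoid R] (i : ι) (x : σ → R) : mon (D.d i) x ∣ mon (D.a i) x :=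
  Finset.prod_dvd_prod_of_dvd _ _ fun s _ => pow_dvd_pow _ (D.d_le i s)

theorem W_mono {S S' : Set ι} (h : S ⊆ S') : D.W S ≤ D.W S' := Submodule.span_mono (image_mono h)

theorem mem_W {S : Set ι} {i : ι} (h : i ∈ S) : D.c i ∈ D.W S :=
  Submodule.subset_span (mem_image_of_mem _ h)

theorem W_le {S : Set ι} {V : Submodule ℂ (J → ℂ)} (h : ∀ i ∈ S, D.c i ∈ V) : D.W S ≤ V :=
  Submodule.span_le.2 (forall_mem_image.2 h)

section

variable {E : Type} [AddCommGroup E] [Module ℂ E] {φ : E → σ → TR n} (h : ∀ s, CFM fun x => φ x s)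
include h

theorem cfm_g (F : Finset ι) (j : J) : CFM fun x => D.g F (φ x) j :=
  CFM.sum _ fun _ _ => CFM.smul (CF.const _) (cfm_mon _ h)

theorem cons_act (L : ℕ) (F : Finset ι) (Ξ : Set ι → Prop) : Cons {x | Ξ (D.act L F (φ x))} :=
  cons_pattern (fun k => (cons_const (k ∈ F)).and ((cfm_mon (D.d k) h).cons_dvd _).not) Ξ

theorem cons_EvH (L : ℕ) (F : Finset ι) : Cons {x | D.EvH L F (φ x)} :=
  (cons_forall fun j => (D.cfm_g h F j).cons_dvd _).and
    (D.cons_act h L F fun S => ∀ i ∈ F, D.c i ∈ D.W S)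

theorem cfm_zc (G : Finset ι) : CFM fun x => D.zc G (φ x) := CFM.pi fun i => by
  by_cases hi : i ∈ G
  · simpa [zc, hi] using (cfm_mon (D.d i) h).app (cf n n)
  · simpa [zc, hi] using CFM.const (E := E) (0 : ℂ)

theorem cons_EvM (G : Finset ι) {Θ : (ι → ℂ) → Prop} (hΘ : Cons {z | Θ z}) :
    Cons {x | D.EvM G Θ (φ x)} :=
  (cons_forall_mem G fun i _ => (cfm_mon (D.d i) h).cons_dvd _).and (hΘ.preimage (D.cfm_zc h G))

end

end Dat

theorem cfm_tm {σ : Type} {n : ℕ} (s : σ) : CFM fun y : σ → TR n => tm y s :=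
  (CFM.const _).mul (CFM.id.apply s)

end Pool.Agent.P.MP_9321be_ag.DG
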