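import Pool.Agent.P.MP_9321be_ag.DG.Step
import Pool.Agent.P.MP_9321be_ag.SN.ZInv

/-!
The candidate poles of the zeta function.
-/

set_option linter.unusedSectionVars false

namespace Pool.Agent.P.MP_9321be_ag.DG

open ND Set MvPolynomial

theorem pr_lin {σ J : Type} [Fintype σ] [Fintype J] {n : ℕ} {g : (σ → TR n) → Option J → TR n}
    (hg : ∀ j, CFM fun y => g y j) {A : (σ ⊕ J → TR n) → TR n} (hA : ∀ z, A z =
      g (fun s => z (.inl s)) none + ∑ j, tt n * z (.inr j) * g (fun s => z (.inl s)) (some j)) :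
    pr {z | tt n ^ (n + 1) ∣ A z} = lefInv * pr {z | tt n ^ n ∣ A z} +
      (pr {y | (∀ j, tt n ^ n ∣ g y j) ∧ tt n ^ (n + 1) ∣ g y none} -
        lefInv * pr {y | (∀ j, tt n ^ n ∣ g y j) ∧ True}) := by
  classical
  let π : (σ ⊕ J → TR n) →ₗ[ℂ] σ → TR n := LinearMap.funLeft ℂ _ Sum.inl
  have c1 := fun j => (hg j).comp (CFM.lin π)
  have c2 : CFM A := funext hA ▸ (c1 none).add
    (CFM.sum _ fun j _ => ((CFM.const _).mul (CFM.id.apply (Sum.inr j))).mul (c1 (some j)))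
  have c3 : Cons {z | ∀ j, tt n ^ n ∣ g (π z) (some j)} := cons_forall fun j => (c1 _).cons_dvd _
  have e1 : ∀ k, pr {z | (∀ j, tt n ^ n ∣ g (π z) (some j)) ∧ tt n ^ k ∣ A z} =
      pr {y | (∀ j, tt n ^ n ∣ g y (some j)) ∧ tt n ^ k ∣ g y none} := fun k => by
    rw [← pr_surj π (LinearMap.funLeft_surjective_of_injective _ _ _ Sum.inl_injective)
      ((cons_forall fun j => (hg (some j)).cons_dvd _).and ((hg none).cons_dvd (tt n ^ k)))]
    refine pr_congr fun z => and_congr_right fun h => ?_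
    rw [hA, Finset.sum_eq_zero fun j _ => ?_, add_zero]
    · rfl
    · obtain ⟨μ, hμ⟩ := h j
      rw [show g (fun s => z (.inl s)) (some j) = _ from hμ]
      linear_combination z (.inr j) * μ * tt_pow (n := n)
  obtain ⟨v, hv, H⟩ := exists_choice Finset.univ (G := fun j y => ¬ tt n ^ n ∣ g y (some j))
    (fun j => ((hg _).cons_dvd _).not) (r := fun j y => (Pi.single j (psi (g y (some j))) : J → _))
    fun j => (cfm_psi (hg _)).app (LinearMap.single ℂ (fun _ : J => TR n) j)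
  have H' : ∀ z (r : ℂ), (¬ ∀ j, tt n ^ n ∣ g (π z) (some j)) →
      A (z + r • Sum.elim (fun _ => 0) (v (π z))) = A z + r • tt n ^ n := fun z r hz => by
    obtain ⟨j, -, a1, a2⟩ := H (π z) (by simpa using hz)
    have a3 : ∑ k, tt n * v (π z) k * g (π z) (some k) = tt n ^ n := by
      rw [a2, Finset.sum_eq_single j (fun b _ hb => by simp [hb]) (by simp), Pi.single_eq_same,
        mul_comm, mul_psi a1]
    rw [hA, hA, ← a3]
    simp only [Pi.add_apply, Pi.smul_apply, Sum.elim_inl, Sum.elim_inr, smul_zero,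
      add_zero, mul_add, add_mul, Finset.sum_add_distrib, mul_smul_comm, smul_mul_assoc,
      Finset.smul_sum, add_assoc]
    rfl
  have e0 : ∀ (z : σ ⊕ J → TR n) (r : ℂ) w, π (z + r • Sum.elim (fun _ => 0) w) = π z := fun z r w =>
    funext fun s => by simp [π]
  have e2 := pr_flow (c3.not.and (c2.cons_dvd (tt n ^ n))) (c2 (cf n n))
    (v := fun z => Sum.elim (fun _ => 0) (v (π z))) (CFM.pi (by
      rintro (i | j)
      exacts [CFM.const _, (hv.comp (CFM.lin π)).apply j])) (fun z a hz => ⟨by rw [e0]; exact hz.1, by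
        rw [H' z a hz.1, Algebra.smul_def]; exact hz.2.add (dvd_mul_left _ _)⟩)
    (fun z a _ => by simp only [e0]) fun z a hz => by simp [H' z a hz.1, cf_top]
  have e5 := (pr_congr fun z => ⟨fun h => ⟨(dvd_succ_iff ((pow_dvd_pow _ n.le_succ).trans h.2)).1
    h.2, h.1, (pow_dvd_pow _ n.le_succ).trans h.2⟩,
    fun h => And.intro h.2.1 ((dvd_succ_iff h.2.2).2 h.1)⟩).trans e2
  have e6 : pr {y | (∀ j, tt n ^ n ∣ g y (some j)) ∧ tt n ^ (n + 1) ∣ g y none} =
      pr {y | (∀ j, tt n ^ n ∣ g y j) ∧ tt n ^ (n + 1) ∣ g y none} := pr_congr fun y =>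
    and_congr_left fun h => by simp [Option.forall, (pow_dvd_pow _ n.le_succ).trans h]
  have e7 : pr {y | (∀ j, tt n ^ n ∣ g y (some j)) ∧ tt n ^ n ∣ g y none} =
      pr {y | (∀ j, tt n ^ n ∣ g y j) ∧ True} := pr_congr fun y => by simp [Option.forall, and_comm]
  rw [pr_split (c2.cons_dvd (tt n ^ (n + 1))) c3, pr_split (c2.cons_dvd (tt n ^ n)) c3, e1, e1, e5,
    e6, e7]
  ring

namespace Dat

variable {σ ι J : Type} [Fintype σ] [DecidableEq σ] [Fintype ι] [DecidableEq ι] [Fintype J]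
  {N : ℕ} {K : ι → Prop}

section

variable (D : Dat σ ι J)

theorem SH_add {F F' : Finset ι} (h : D.Fl F F') (s s' : ℕ) (h1 : D.SH K N F' s)
    (h2 : D.Sl N (F \ F') s') : D.SH K N F (s + s') := by
  obtain ⟨G, _, a1, a2, ⟨b, a3, rfl⟩, rfl⟩ := h1
  obtain ⟨b', a4, rfl⟩ := h2
  have e : F \ G = (F' \ G) ∪ (F \ F') := by
    ext i
    have := @h.1 i
    have := @a1.1 i
    simp only [Finset.mem_sdiff, Finset.mem_union]
    tauto
  refine ⟨G, _, ⟨a1.1.trans h.1, fun i hi e => a1.2 i (h.2 i hi (D.W_mono a1.1 e)) e⟩, a2,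
    ⟨fun i => if i ∈ F' then b i else b' i, fun i hi => ?_, rfl⟩, ?_⟩
  · beta_reduce
    split_ifs with h3
    · exact a3 i (Finset.mem_sdiff.2 ⟨h3, (Finset.mem_sdiff.1 hi).2⟩)
    · exact a4 i (Finset.mem_sdiff.2 ⟨(Finset.mem_sdiff.1 hi).1, h3⟩)
  · rw [e, Finset.sum_union (Finset.disjoint_left.2 fun i h3 h4 =>
      (Finset.mem_sdiff.1 h4).2 (Finset.mem_sdiff.1 h3).1), add_assoc]
    congr 2 <;> refine Finset.sum_congr rfl fun i hi => ?_
    · simp only [if_pos (Finset.mem_sdiff.1 hi).1]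
    · simp only [if_neg (Finset.mem_sdiff.1 hi).2]

theorem kil_H (hN : ∀ i s, D.d i s ≠ 0 → D.d i s ∣ N) (F : Finset ι) (hK : ∀ i ∈ F, K i) :
    Kil lefInv N (D.SH K N F) (D.H F) := by
  classical
  induction F using Finset.strongInduction with
  | H F ih =>
  by_cases hF : D.Good F
  swap
  · exact .zero _ 0 fun n _ => (congrArg pr (eq_empty_of_forall_notMem fun y hy =>
      hF (D.good hy))).trans pr_empty
  have h1 : D.Fl F F := ⟨le_rfl, fun _ h _ => h⟩
  refine Kil.recur (r := D.rk F) ⟨F, 0, h1, ⟨hF, hK⟩, ⟨0, by simp, by simp⟩, rfl⟩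
    (kil_sum ((Finset.univ.filter (D.Fl F)).erase F) (F := fun F' n => lefInv ^ D.rk F' *
      (D.H F' n * D.B (F \ F') (D.Th F F') n)) fun F' h => ?_) fun n => ?_
  · have h2 := (Finset.mem_filter.1 (Finset.mem_of_mem_erase h)).2
    exact ((ih F' (h2.1.ssubset_of_ne (Finset.ne_of_mem_erase h)) fun i hi => hK i (h2.1 hi)).mul
      (D.SH_add h2) (D.kil_B _ (D.cons_Th F F') hN)).smul _
  · have h2 : D.B (F \ F) (D.Th F F) n = 1 := (congrArg pr (eq_univ_of_forall fun y => by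
      exact ⟨by simp, by simp, fun i hi => D.mem_W (Or.inl hi)⟩)).trans pr_univ
    rw [D.step, ← Finset.add_sum_erase _ _ (Finset.mem_filter.2 ⟨Finset.mem_univ F, h1⟩), h2,
      mul_one]

/-- The equations. -/
noncomputable def eqs (j : J) : MvPolynomial σ ℂ := ∑ i, monomial (D.a i) (D.c i j)

theorem aeval_eqs {R : Type} [CommRing R] [Algebra ℂ R] (x : σ → R) (j : J) :
    aeval x (D.eqs j) = ∑ i, D.c i j • mon (D.a i) x := by
  simp [eqs, aeval_monomial, Finsupp.prod_fintype, mon, Algebra.smul_def]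

end

variable (D : Dat σ ι (Option J))

theorem kil_P (hN : ∀ i s, D.d i s ≠ 0 → D.d i s ∣ N) :
    Kil lefInv N (D.SH (D.c · none = 0) N Finset.univ) fun n =>
      pr {y : σ → TR n | (∀ j, tt n ^ n ∣ D.g Finset.univ (tm y) j) ∧
        tt n ^ (n + 1) ∣ D.g Finset.univ (tm y) none} -
      lefInv * pr {y : σ → TR n | (∀ j, tt n ^ n ∣ D.g Finset.univ (tm y) j) ∧ True} := by
  classical
  simp only [D.split _ _ (cons_const True), D.split _ _ ((D.cfm_g cfm_tm _ none).cons_dvd _),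
    Finset.mul_sum, ← Finset.sum_sub_distrib]
  refine kil_sum _ fun F hF => ?_
  have h1 := (Finset.mem_filter.1 hF).2
  have e1 : ∀ n, pr {y : σ → TR n | (D.EvH n F (tm y) ∧
      ∀ i ∈ Finset.univ \ F, tt n ^ n ∣ mon (D.d i) (tm y)) ∧
      tt n ^ (n + 1) ∣ D.g Finset.univ (tm y) none} = pr {y : σ → TR n |
        D.top Finset.univ (tm y) none = 0 ∧ D.EvH n F (tm y) ∧
          D.EvM (Finset.univ \ F) (fun _ => True) (tm y)} := fun n => pr_congr fun y => by
    rw [EvM, and_true, and_comm]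
    exact and_congr_left fun h => dvd_succ_iff ((D.g_dvd h1.1 h.2 _).2 (h.1.1 _))
  by_cases h : ∀ i ∈ F, D.c i none = 0
  · have h2 : D.W F ≤ LinearMap.ker (LinearMap.proj none) := D.W_le h
    have c1 : Cons {z : ι → ℂ | (∑ i ∈ Finset.univ \ F,
        (if D.rig i then z i else 0) • D.c i) none = 0} := ((CFM.sum _ fun i _ => CFM.smul (by
      split_ifs
      exacts [(CFM.id.apply i).cf, CF.const _]) (CFM.const _)).apply none).cons_zero
    refine (((D.kil_H hN F h).mul (D.SH_add h1) (D.kil_B _ c1 hN)).sub (((D.kil_H hN F h).mul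
      (D.SH_add h1) (D.kil_B _ (cons_const True) hN)).smul lefInv)).congr 0 fun n _ => ?_
    rw [e1, ← D.pr_HB _ F c1, ← D.pr_HB _ F (cons_const _)]
    refine congrArg₂ _ (pr_congr fun y => ?_)
      (congrArg _ (pr_congr fun y => by simp only [EvM, and_true]))
    rw [and_left_comm, EvM, EvM, and_true, and_comm (a := _ = _)]
    refine and_congr_right fun _ => and_congr_right fun a => ?_
    obtain ⟨w, a1, a2⟩ := D.top_sub h1.1 a
    rw [a2, Pi.add_apply, show w none = 0 from h2 a1, add_zero]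
  · refine .zero _ 0 fun n _ => ?_
    push Not at h
    obtain ⟨i, hi, h⟩ := h
    have h2 := D.pr_top (n := n) (LinearMap.proj none : _ →ₗ[ℂ] ℂ) h1.1 (cons_const True)
    rw [(eq_bot_or_eq_top ((D.W F).map (LinearMap.proj none : _ →ₗ[ℂ] ℂ))).resolve_left fun e =>
      h ((Submodule.eq_bot_iff _).1 e _ ⟨_, D.mem_W hi, rfl⟩)] at h2
    rw [e1, sub_eq_zero]
    simpa [EvM] using h2

/-- The polynomial. -/
noncomputable def pol : MvPolynomial (σ ⊕ J) ℂ :=
  rename Sum.inl (D.eqs none) + hyper fun j => D.eqs (some j)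

/-- The candidate slopes. -/
def Cand (α : ℚ) : Prop := ∃ (F : Finset ι) (b : ι → ℕ), D.Fl Finset.univ F ∧
  (D.Good F ∧ ∀ i ∈ F, D.c i none = 0) ∧
  (∀ i ∉ F, b i ≠ 0 ∧ ∃ s, D.d i s = b i) ∧ α = D.rk F + ∑ i ∈ Finset.univ \ F, (b i : ℚ)⁻¹

theorem rt_zeta (hf : D.pol ≠ 0) : Rt lefInv (fun α => α = 1 ∨ D.Cand α) (zeta D.pol) := by
  classical
  obtain ⟨N, N0, hN⟩ : ∃ N, 0 < N ∧ ∀ i s, D.d i s ≠ 0 → D.d i s ∣ N :=
    ⟨(∑ i, ∑ s, D.d i s).factorial, Nat.factorial_pos _, fun i s h => Nat.dvd_factorial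
      (Nat.pos_of_ne_zero h) ((Finset.single_le_sum (fun _ _ => Nat.zero_le _)
        (Finset.mem_univ s)).trans (Finset.single_le_sum (f := fun i => ∑ s, D.d i s)
          (fun _ _ => Nat.zero_le _) (Finset.mem_univ i)))⟩
  have e1 : ∀ n k, SN.ms D.pol n k = lefInv ^ Fintype.card (σ ⊕ J) *
      pr {z : σ ⊕ J → TR n | tt n ^ k ∣ aeval (tm z) D.pol} := fun n k => by
    have := pr_tt Finset.univ ((SN.cfm_aeval (M := n) D.pol).cons_dvd (tt n ^ k))
    simp only [Finset.mem_univ, if_true, forall_const, Finset.card_univ] at this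
    exact this
  have k1 : Kil lefInv N (fun s => s = N ∨ D.SH (D.c · none = 0) N Finset.univ s)
      fun l => SN.ms D.pol l l :=
    Kil.recur (r := 1) (.inl (one_mul N)) (((D.kil_P hN).smul
      (lefInv ^ Fintype.card (σ ⊕ J))).mono fun _ => .inr) fun l => by
      rw [SN.ms_level _ l.le_succ le_rfl, e1, e1, pr_lin (g := fun y => D.g Finset.univ (tm y))
        (D.cfm_g cfm_tm _) fun z => ?_]
      · ring
      · simp only [pol, hyper, map_add, map_sum, map_mul, aeval_X, aeval_rename, aeval_eqs]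
        rfl
  refine ((k1.sub (k1.shift 1)).rt N0 ?_).congr_ev (l₀ := 1) fun l hl => ?_
  · rintro s (rfl | ⟨F, _, h1, h2, ⟨b, h3, rfl⟩, rfl⟩)
    · exact ⟨N0, .inl (div_self (by positivity))⟩
    have h4 : ∀ i ∈ Finset.univ \ F, b i ∣ N := fun i hi => by
      obtain ⟨h4, s, e⟩ := h3 i hi
      exact e ▸ hN i s (e ▸ h4)
    refine ⟨Nat.pos_of_ne_zero fun h => hf ?_, .inr ⟨F, b, h1, h2,
      fun i hi => h3 i (by simpa using hi), ?_⟩⟩
    · obtain ⟨h5, h6⟩ := Nat.add_eq_zero_iff.1 h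
      have h7 : D.W F = ⊥ := Submodule.finrank_eq_zero.1 ((mul_eq_zero.1 h5).resolve_right N0.ne')
      have h8 : ∀ i, D.c i = 0 := fun i => (Submodule.mem_bot ℂ).1 (h7 ▸ D.mem_W (by_contra fun e => by
        have hi : i ∈ Finset.univ \ F := by simpa using e
        exact (Nat.div_pos (Nat.le_of_dvd N0 (h4 i hi)) (Nat.pos_of_ne_zero (h3 i hi).1)).ne'
          (Finset.sum_eq_zero_iff.1 h6 i hi)))
      simp [pol, hyper, eqs, h8]
    · have : (N : ℚ) ≠ 0 := by positivity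
      push_cast
      rw [add_div, mul_div_cancel_right₀ _ this, Finset.sum_div]
      congr 1
      refine Finset.sum_congr rfl fun i hi => ?_
      rw [Nat.cast_div (h4 i hi) (Nat.cast_ne_zero.2 (h3 i hi).1)]
      field_simp
  · rw [SN.coeff_zeta_ms _ (by omega), PowerSeries.coeff_mk]

end Dat

end Pool.Agent.P.MP_9321be_ag.DG
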