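import Pool.Agent.P.MP_9321be_ag.DG.EModel
import Pool.Agent.P.MP_9321be_ag.DG.ZMain

/-!
Local coordinates at a point close to the origin.
-/

set_option linter.unusedSectionVars false

namespace Pool.Agent.P.MP_9321be_ag.DG

open ND NC Set MvPolynomial Filter Topology Module

theorem exists_chart {τ : Type} [Fintype τ] {Φ : (τ → ℂ) → τ → ℂ} {p : τ → ℂ}
    (h : AnalyticAt ℂ Φ p)
    (hd : ∀ ξ : τ → ℂ, (∀ t, HasDerivAt (fun r : ℂ => Φ (p + r • ξ) t) 0 0) → ξ = 0)
    {X : (τ → ℂ) → Prop} (hX : ∀ᶠ z in 𝓝 p, X z) :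
    ∃ Ψ : OpenPartialHomeomorph (τ → ℂ) (τ → ℂ), ⇑Ψ = Φ ∧ p ∈ Ψ.source ∧ ∀ z ∈ Ψ.source, X z := by
  have h1 : Function.Injective (fderiv ℂ Φ p).toLinearMap :=
    (injective_iff_map_eq_zero _).2 fun ξ e => hd ξ fun t => by
      have := hasDerivAt_pi.1 (h.differentiableAt.hasFDerivAt.hasLineDerivAt ξ) t
      rwa [show fderiv ℂ Φ p ξ = 0 from e] at this
  let L : (τ → ℂ) ≃L[ℂ] τ → ℂ := (LinearEquiv.ofBijective _
    ⟨h1, LinearMap.injective_iff_surjective.1 h1⟩).toContinuousLinearEquiv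
  have h2 : HasStrictFDerivAt Φ (L : _ →L[ℂ] _) p := h.hasStrictFDerivAt
  obtain ⟨V, v1, v2, v3⟩ := eventually_nhds_iff.1 hX
  exact ⟨(h2.toOpenPartialHomeomorph _).restrOpen V v2, rfl,
    ⟨h2.mem_toOpenPartialHomeomorph_source, v3⟩, fun z hz => v1 z hz.2⟩

theorem lin_zero {c : ℂ} {E : ℂ → ℂ} (hE : DifferentiableAt ℂ E 0) (h0 : E 0 ≠ 0)
    (h : HasDerivAt (fun r => r * c * E r) 0 0) : c = 0 := by
  simpa [h0] using ((hasDerivAt_mul_const c).mul hE.hasDerivAt).unique h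

theorem exists_root {E : Type} [NormedAddCommGroup E] [NormedSpace ℂ E] {u : E → ℂ} {p : E}
    (h : AnalyticAt ℂ u p) (h0 : u p ≠ 0) {b : ℕ} (hb : b ≠ 0) :
    ∃ ρ : E → ℂ, AnalyticAt ℂ ρ p ∧ ρ p ≠ 0 ∧ ∀ᶠ z in 𝓝 p, ρ z ^ b = u z := by
  refine ⟨fun z => Complex.exp ((Complex.log (u z / u p) + Complex.log (u p)) / b),
    ((((h.div_const (c := u p)).clog (by simp [h0])).add analyticAt_const).div_const).cexp',
    Complex.exp_ne_zero _, (h.continuousAt.eventually_ne h0).mono fun z hz => ?_⟩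
  rw [← Complex.exp_nat_mul, mul_div_cancel₀ _ (Nat.cast_ne_zero.2 hb), Complex.exp_add,
    Complex.exp_log (div_ne_zero hz h0), Complex.exp_log h0, div_mul_cancel₀ _ h0]

namespace Dat

variable {σ ι J : Type} [Fintype σ] [DecidableEq σ] [Fintype ι] [DecidableEq ι] [Fintype J]
  [DecidableEq J] (D : Dat σ ι J)

theorem chart {A₀ : ι → ℂ} {f : MvPolynomial (σ ⊕ J) ℂ} (hf : ∀ z, eval z f =
      ∑ i, mon (D.a i) (fun s => z (.inl s)) * (A₀ i + (fun j => z (.inr j)) ⬝ᵥ D.c i))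
    {F B : Finset ι} (hA : ∀ i ∈ F, A₀ i = 0) (hB : B ⊆ F) (bs : Basis J ℂ (J → ℂ)) {γ : B → J}
    (hγ : Function.Injective γ) (h1 : ∀ k, bs (γ k) = D.c k)
    (h2 : ∀ i ∈ F, D.c i ∈ Submodule.span ℂ (range fun k : B => D.c k)) (b : ι → ℕ) (piv : ι → σ)
    (hp : ∀ i, D.a i (piv i) ≠ 0) (p : σ ⊕ J → ℂ)
    (p1 : ∀ i, A₀ i + (fun j => p (.inr j)) ⬝ᵥ D.c i = 0 ↔ i ∈ F)
    (p2 : ∑ i ∈ F, mon (D.a i) (fun s => p (.inl s)) • D.c i = 0)
    (p3 : ∀ k ∈ B, mon ((D.a k).erase (piv k)) (fun s => p (.inl s)) *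
      p (.inl (piv k)) ^ (D.a k (piv k) - 1) ≠ 0)
    (p4 : ∀ i ∉ F, D.a i (piv i) = b i ∧ (∀ s, D.a i s ≠ 0 → (p (.inl s) = 0 ↔ D.a i s = b i)) ∧
      2 ≤ ∑ s, (D.a i).filter (fun s => D.a i s = b i) s)
    {α : ℚ} (hα : α = B.card + ∑ i ∈ Finset.univ \ F, (b i : ℚ)⁻¹) (hz : ∀ k : ℤ, α ≠ k)
    {U : Set (σ ⊕ J → ℂ)} (hU : U ∈ 𝓝 p) : ∃ x ∈ U, eval x f = 0 ∧
      IsMonodromyEigenvalue f x (Complex.exp (-(2 * Real.pi * Complex.I * α))) := by
  classical
  have a0 : ∀ t, AnalyticAt ℂ (fun z : σ ⊕ J → ℂ => z t) p := analyticAt_pi_iff.1 analyticAt_id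
  have an : ∀ e : σ →₀ ℕ, AnalyticAt ℂ (fun z : σ ⊕ J → ℂ => mon e fun s => z (.inl s)) p :=
    fun e => Finset.analyticAt_fun_prod _ fun s _ => (a0 _).fun_pow _
  have an' : ∀ v : J → ℂ, AnalyticAt ℂ (fun z : σ ⊕ J → ℂ => (fun j => z (.inr j)) ⬝ᵥ v) p :=
    fun v => Finset.analyticAt_fun_sum _ fun j _ => (a0 _).mul analyticAt_const
  have rt : ∀ i : {i // i ∉ F}, ∃ ρ : (σ ⊕ J → ℂ) → ℂ, AnalyticAt ℂ ρ p ∧ ρ p ≠ 0 ∧ ∀ᶠ z in 𝓝 p,
      ρ z ^ b i = mon ((D.a i).filter fun s => ¬ D.a i s = b i) (fun s => z (.inl s)) *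
        (A₀ i + (fun j => z (.inr j)) ⬝ᵥ D.c i) := fun i =>
    exists_root ((an _).mul (analyticAt_const.add (an' _))) (mul_ne_zero (Finset.prod_ne_zero_iff.2 fun s _ => by
      rw [Finsupp.filter_apply]
      split_ifs with h
      · simp
      · by_cases h0 : D.a i s = 0
        · simp [h0]
        · exact pow_ne_zero _ (mt ((p4 i i.2).2.1 s h0).1 h)) (mt (p1 i).1 i.2))
      ((p4 i i.2).1 ▸ hp i)
  choose ρ r1 r2 r3 using rt
  let ix : B ⊕ {i // i ∉ F} → ι := Sum.elim (↑) (↑)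
  have i1 : Function.Injective ix := by
    rintro (k | k) (k' | k') h
    exacts [congrArg _ (Subtype.ext h), (k'.2 (h ▸ hB k.2 : ix (.inr k') ∈ F)).elim,
      (k.2 (h ▸ hB k'.2 : ix (.inr k) ∈ F)).elim, congrArg _ (Subtype.ext h)]
  have i2 : ∀ k i, D.a i (piv (ix k)) ≠ 0 → ix k = i := fun k i => D.dis _ _ _ (hp _)
  have i3 : Function.Injective fun k => piv (ix k) := fun k k' h =>
    i1 (i2 k _ (by rw [show piv (ix k) = _ from h]; exact hp _))
  let ψ : (σ ⊕ J → ℂ) → B ⊕ {i // i ∉ F} → ℂ := fun z => Sum.elim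
    (fun k => ∑ i ∈ F, mon (D.a i) (fun s => z (.inl s)) * bs.repr (D.c i) (γ k))
    fun i => z (.inl (piv i)) * ρ i z
  let Φ : (σ ⊕ J → ℂ) → σ ⊕ J → ℂ := fun z => Sum.elim
    (Function.extend (fun k => piv (ix k)) (ψ z) fun s => z (.inl s) - p (.inl s))
    fun j => (fun j => z (.inr j)) ⬝ᵥ bs j - (fun j => p (.inr j)) ⬝ᵥ bs j
  have f1 : ∀ z k, Φ z (.inl (piv (ix k))) = ψ z k := fun z k =>
    i3.extend_apply (ψ z) (fun s => z (.inl s) - p (.inl s)) k
  have fl : ∀ z (k : B), Φ z (.inl (piv k)) = ψ z (.inl k) := fun z k => f1 z (.inl k)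
  have f2 : ∀ z s, (¬ ∃ k, piv (ix k) = s) → Φ z (.inl s) = z (.inl s) - p (.inl s) :=
    fun z s h => Function.extend_apply' (ψ z) (fun s => z (.inl s) - p (.inl s)) _ h
  have f3 : ∀ i : {i // i ∉ F}, p (.inl (piv i)) = 0 := fun i =>
    ((p4 i i.2).2.1 _ (hp i)).2 (p4 i i.2).1
  have f4 : ∀ k k' : B, bs.repr (D.c k') (γ k) = if k' = k then 1 else 0 := fun k k' => by
    rw [← h1, bs.repr_self, Finsupp.single_apply]
    simp only [hγ.eq_iff]
  have f5 : ∀ i ∈ F, ∑ k, bs.repr (D.c i) (γ k) • D.c k = D.c i := fun i hi => by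
    obtain ⟨r, hr⟩ := (Submodule.mem_span_range_iff_exists_fun ℂ).1 (h2 i hi)
    rw [← hr]
    simp [f4]
  have f6 : ∀ t, AnalyticAt ℂ (fun z => Φ z t) p := by
    rintro (s | j)
    · by_cases h : ∃ k, piv (ix k) = s
      · obtain ⟨k | k, rfl⟩ := h <;> simp only [f1, ψ, Sum.elim_inl, Sum.elim_inr]
        · exact Finset.analyticAt_fun_sum _ fun i _ => (an _).mul analyticAt_const
        · exact (a0 _).mul (r1 k)
      · simp only [f2 _ _ h]
        exact (a0 _).sub analyticAt_const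
    · exact (an' _).sub analyticAt_const
  refine (exists_chart (Φ := Φ) (analyticAt_pi_iff.2 f6) ?_ (eventually_all.2 r3)).elim
    fun Ψ ⟨g1, g2, g3⟩ => ?_
  swap
  · refine model (K := B ⊕ {i // i ∉ F}) (fun k => Finsupp.equivFunOnFinite.symm (Sum.elim
      (fun k : B => Sum.elim (Pi.single (piv k) 1) (Pi.single (γ k) 1))
      (fun i : {i // i ∉ F} => Sum.elim ((D.a i).filter fun s => D.a i s = b i) 0) k))
      (Sum.elim 1 fun i => b i) ?_ ?_ ?_ ?_ hz _ Ψ g2 ?_ (fun z hz => ?_) hU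
    · rintro (k | k) (s | s) <;> simp +contextual [Pi.single_apply, Finsupp.filter_apply]
    · have g4 : ∀ (k : B) (i : {i // i ∉ F}), D.a i (piv k) = 0 := fun k i =>
        by_contra fun h => Sum.inl_ne_inr (i1 (i2 (.inl k) (ix (.inr i)) h))
      rintro (k | k) (k' | k') (s | s) <;>
        simp +contextual [Pi.single_apply, Finsupp.filter_apply, hγ.eq_iff, g4]
      · exact fun _ h => Sum.inl_injective (i3 (a₁ := .inl k) (a₂ := .inl k') h)
      · rintro h h' rfl
        exact h' (h.symm.trans (g4 _ _))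
      · exact fun _ h _ h' => Subtype.ext (D.dis _ _ s (by omega) (by omega))
    · rintro (k | k)
      · simp [Pi.single_apply]
      · simpa using (p4 k k.2).2.2
    · rw [hα, Fintype.sum_sum_type, Finset.sum_subtype (p := (· ∉ F)) (F := inferInstance) _ (by simp)]
      simp
    · rw [g1]
      funext t
      rcases t with s | j
      · by_cases h : ∃ k, piv (ix k) = s
        · obtain ⟨k | k, rfl⟩ := h <;> rw [f1]
          · simpa [ψ] using congrArg (bs.repr · (γ k)) p2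
          · simp [ψ, f3]
        · simp [f2 _ _ h]
      · simp [Φ]
    · rw [hf, g1, Fintype.sum_sum_type, ← Finset.sum_add_sum_compl F,
        Finset.sum_subtype (p := (· ∉ F)) Fᶜ (by simp)]
      congr 1
      · have : ∀ k : B, Φ z (.inl (piv k)) * Φ z (.inr (γ k)) = ∑ i ∈ F,
            mon (D.a i) (fun s => z (.inl s)) * ((fun j => z (.inr j)) ⬝ᵥ
              (bs.repr (D.c i) (γ k) • D.c k)) := fun k => by
          rw [fl]
          have := (p1 k).2 (hB k.2)
          rw [hA _ (hB k.2), zero_add] at this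
          simp [ψ, Φ, h1, this, Finset.sum_mul, mul_assoc]
        simp only [mon, Sum.elim_inl, Finsupp.equivFunOnFinite_symm_apply_apply,
          Fintype.prod_sum_type, Sum.elim_inr, Pi.single_apply, pow_ite, pow_one, pow_zero,
          Finset.prod_ite_eq', Finset.mem_univ, if_true, this]
        rw [Finset.sum_comm]
        exact Finset.sum_congr rfl fun i hi => by
          rw [← Finset.mul_sum, ← dotProduct_sum, f5 i hi, hA i hi, zero_add]
      · refine Finset.sum_congr rfl fun i _ => ?_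
        have e1 := mon_update ((D.a i).filter fun s => D.a i s = b i)
          (x := fun s => z (.inl s)) (x' := Function.update (fun s => z (.inl s)) (piv i)
            (z (.inl (piv i)) * ρ i z)) (fun r hr => Function.update_of_ne hr _ _)
            (Function.update_self ..)
        rw [Finsupp.filter_apply, if_pos (p4 i i.2).1, (p4 i i.2).1, g3 z hz i, ← mul_assoc,
          ← mon_add, Finsupp.filter_add_filter_not] at e1
        rw [← e1, ← mon_congr (x := fun s => Φ z (.inl s)) fun s hs => ?_]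
        · simp [mon]
        by_cases h : s = piv i
        · rw [h, Function.update_self]
          exact f1 z (.inr i)
        · obtain ⟨a1, a2⟩ : D.a i s = b i ∧ D.a i s ≠ 0 := by
            simpa [Finsupp.filter_apply] using hs
          rw [Function.update_of_ne h, f2 _ _ fun ⟨k, e⟩ => h (by rw [← i2 k i (e ▸ a2), e]),
            ((p4 i i.2).2.1 s a2).2 a1, sub_zero]
  intro ξ h
  have k1 : ∀ j, ξ (.inr j) = 0 := by
    have k2 : ∀ j, (fun j => ξ (.inr j)) ⬝ᵥ bs j = 0 := fun j =>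
      lin_zero (differentiableAt_const 1) one_ne_zero (by
        convert h (.inr j) using 2 with r
        simp [Φ, dotProduct, add_mul, Finset.sum_add_distrib, Finset.mul_sum, mul_assoc])
    intro j
    have := congrArg ((fun j => ξ (.inr j)) ⬝ᵥ ·) (bs.sum_repr (Pi.single j 1))
    simp only [dotProduct_sum, dotProduct_smul, k2, smul_zero, Finset.sum_const_zero] at this
    simpa using this.symm
  have k2 : ∀ s, (¬ ∃ k : B, piv k = s) → ξ (.inl s) = 0 := fun s hs => by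
    by_cases h0 : ∃ k, piv (ix k) = s
    · obtain ⟨k | k, rfl⟩ := h0
      · exact (hs ⟨k, rfl⟩).elim
      refine lin_zero (E := fun r => ρ k (p + r • ξ)) (DifferentiableAt.comp (g := ρ k) 0
        (by simpa using (r1 k).differentiableAt) (by fun_prop)) (by simpa using r2 k) ?_
      convert h (.inl (piv (ix (.inr k)))) using 2 with r
      rw [f1]
      simp [ψ, f3, ix]
    · refine lin_zero (differentiableAt_const 1) one_ne_zero ?_
      convert h (.inl s) using 2 with r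
      simp [f2 _ _ h0]
  funext t
  rcases t with s | j
  swap
  · exact k1 j
  by_cases hs : ∃ k : B, piv k = s
  swap
  · exact k2 s hs
  obtain ⟨k, rfl⟩ := hs
  have k3 : ∀ i s, D.a i s ≠ 0 → s ≠ piv i ∨ i ∉ B → ξ (.inl s) = 0 := fun i s h1 h2 =>
    k2 s fun ⟨k', e⟩ => by
      have := i2 (.inl k') i (by rw [show piv (ix (.inl k')) = s from e]; exact h1)
      subst this
      exact h2.elim (fun h => h e.symm) fun h => h k'.2
  have k4 : ∀ r : ℂ, Φ (p + r • ξ) (.inl (piv k)) = mon ((D.a k).erase (piv k))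
      (fun s => p (.inl s)) * (p (.inl (piv k)) + r * ξ (.inl (piv k))) ^ D.a k (piv k) +
      ∑ i ∈ F.erase k, mon (D.a i) (fun s => p (.inl s)) * bs.repr (D.c i) (γ k) := fun r => by
    rw [fl]
    simp only [ψ, Sum.elim_inl]
    rw [← Finset.add_sum_erase _ _ (hB k.2), f4, if_pos rfl, mul_one]
    congr 1
    · conv_lhs => rw [← Finsupp.erase_add_single (piv k) (D.a k), mon_add, mon_single]
      congr 1
      refine mon_congr fun s hs => ?_
      have : s ≠ piv k := fun e => hs (by simp [e])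
      simp [k3 k s (by rwa [Finsupp.erase_ne this] at hs) (.inl this)]
    · refine Finset.sum_congr rfl fun i hi => ?_
      by_cases h0 : i ∈ B
      · rw [f4 k ⟨i, h0⟩, if_neg fun e => Finset.ne_of_mem_erase hi (congrArg Subtype.val e)]
        simp
      · rw [mon_congr (x' := fun s => p (.inl s)) fun s hs => by simp [k3 i s hs (.inr h0)]]
  have k5 := h (.inl (piv k))
  simp only [k4] at k5
  have k6 := (((((hasDerivAt_mul_const (x := (0 : ℂ)) (ξ (.inl (piv k)))).const_add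
    (p (.inl (piv k)))).fun_pow (D.a k (piv k))).const_mul _).add_const _).unique k5
  have k7 := p3 k k.2
  simp only [zero_mul, add_zero, mul_eq_zero, Nat.cast_eq_zero, ne_eq, not_or] at k6 k7
  have := hp k
  tauto

end Dat

end Pool.Agent.P.MP_9321be_ag.DG
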