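import Pool.Agent.P.MP_9321be_ag.SN.All
import Pool.Agent.P.MP_9321be_ag.DG.Base

/-!
Sums of monomials in disjoint sets of variables as local models.
-/

set_option linter.unusedSectionVars false

namespace Pool.Agent.P.MP_9321be_ag.DG

open ND NC Set MvPolynomial Filter Topology

variable {κ τ K : Type} [Fintype κ] [DecidableEq κ] [Fintype τ] [DecidableEq τ] [Fintype K]

theorem indep_of_disj (X : Finset (τ →₀ ℕ)) (h0 : 0 ∉ X)
    (h : ∀ a ∈ X, ∀ b ∈ X, ∀ s, a s ≠ 0 → b s ≠ 0 → a = b) :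
    LinearIndepOn ℚ vec (X : Set (τ →₀ ℕ)) := by
  refine linearIndepOn_finset_iff.2 fun g hg a ha => ?_
  obtain ⟨s, hs⟩ := Finsupp.ne_iff.1 (show a ≠ 0 from fun e => h0 (e ▸ ha))
  have := congrFun hg s
  rw [Finset.sum_apply, Finset.sum_eq_single a (fun b hb e => by
    simp [vec, show b s = 0 from by_contra fun h1 => e (h b hb a ha s h1 hs)])
    fun h1 => (h1 ha).elim] at this
  simpa [vec, show a s ≠ 0 from hs] using this

theorem model (e : K → τ →₀ ℕ) (b : K → ℕ) (hb : ∀ k s, e k s ≠ 0 → e k s = b k)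
    (hd : ∀ k k' s, e k s ≠ 0 → e k' s ≠ 0 → k = k') (h2 : ∀ k, 2 ≤ ∑ s, e k s)
    {α : ℚ} (hα : α = ∑ k, (b k : ℚ)⁻¹) (hz : ∀ k : ℤ, α ≠ k) (f : MvPolynomial κ ℂ)
    (Φ : OpenPartialHomeomorph (κ → ℂ) (τ → ℂ)) {p : κ → ℂ} (hp : p ∈ Φ.source) (h0 : Φ p = 0)
    (hΦ : ∀ z ∈ Φ.source, ∑ k, mon (e k) (Φ z) = eval z f) {U : Set (κ → ℂ)} (hU : U ∈ 𝓝 p) :
    ∃ x ∈ U, eval x f = 0 ∧
      IsMonodromyEigenvalue f x (Complex.exp (-(2 * Real.pi * Complex.I * α))) := by
  classical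
  have a1 : ∀ k, ∃ s, e k s ≠ 0 := fun k => by_contra fun h => by
    have := h2 k
    push Not at h
    simp [h] at this
  have a2 : ∀ k, e k ≠ 0 := fun k h => by simpa [h] using a1 k
  have a3 : Function.Injective e := fun k k' h => let ⟨s, hs⟩ := a1 k; hd k k' s hs (h ▸ hs)
  have a4 : ∀ k, b k ≠ 0 := fun k => let ⟨s, hs⟩ := a1 k; hb k s hs ▸ hs
  set G : MvPolynomial τ ℂ := ∑ k, monomial (e k) 1 with hG
  have a5 : ∀ k, coeff (e k) G = 1 := fun k => by simp [hG, coeff_sum, coeff_monomial, a3.eq_iff]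
  have a6 : ∀ a, a ∈ G.support ↔ ∃ k, e k = a := fun a =>
    ⟨fun h => by_contra fun h1 => mem_support_iff.1 h (by
      push Not at h1
      simp [hG, coeff_sum, coeff_monomial, h1]), fun ⟨k, h⟩ => by simp [← h, a5]⟩
  have a7 : Nonempty K := by_contra fun h => hz 0 (by
    rw [not_nonempty_iff] at h
    simp [hα])
  have a8 : Nondeg G := fun w _ x hx => by
    obtain ⟨a, h1, h3⟩ := G.support.exists_min_image (fun a => ∑ i, (a i : ℝ) * w i)
      ⟨_, (a6 _).2 ⟨a7.some, rfl⟩⟩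
    obtain ⟨k, rfl⟩ := (a6 a).1 h1
    obtain ⟨s, hs⟩ := a1 k
    refine ⟨s, ?_⟩
    rw [facePoly, map_sum, map_sum, Finset.sum_eq_single (e k) (fun a ha h => ?_)
      fun h => (h (Finset.mem_filter.2 ⟨h1, h3⟩)).elim]
    · simp [pderiv_monomial, eval_monomial, a5, hs, Finsupp.prod, Finset.prod_eq_zero_iff, hx]
    · obtain ⟨k', rfl⟩ := (a6 a).1 (Finset.mem_filter.1 ha).1
      simp [pderiv_monomial, show e k' s = 0 from by_contra fun h4 => h (by rw [hd _ _ s h4 hs])]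
  obtain ⟨h, h3, h4⟩ := exists_genH G.support (c := 1) fun _ => one_pos
  let u : τ → ℝ := fun s => ∑ k, (e k s : ℝ) / (b k * ∑ r, e k r)
  let J := Finset.univ.filter fun s => ∀ k, e k s = 0
  have b1 : ∀ k, (∑ r, e k r : ℝ) ≠ 0 := fun k => by
    have := h2 k
    exact_mod_cast (by omega : ∑ r, e k r ≠ 0)
  have b2 : ∀ k, dr (e k) u = 1 := fun k => by
    have : ∀ s, (e k s : ℝ) * u s = e k s / ∑ r, e k r := fun s => by
      by_cases hs : e k s = 0
      · simp [hs]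
      have := Nat.cast_ne_zero (R := ℝ).2 (a4 k)
      simp only [u]
      rw [Finset.sum_eq_single k (fun k' _ h => by
        simp [show e k' s = 0 from by_contra fun h5 => h (hd _ _ s h5 hs)]) (by simp), hb k s hs]
      push_cast
      field_simp
    simp only [dr, this, ← Finset.sum_div]
    push_cast
    exact div_self (b1 k)
  have b3 : ∀ j, u j = 0 ↔ j ∈ J := fun j => by
    simp only [u, J, Finset.mem_filter, Finset.mem_univ, true_and]
    rw [Finset.sum_eq_zero_iff_of_nonneg fun _ _ => by positivity]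
    refine ⟨fun h5 k => ?_, fun h5 k _ => by simp [h5]⟩
    simpa [a4, b1] using h5 k (Finset.mem_univ _)
  have b4 : ∀ a ∈ G.support, dr a (fun s => if s ∈ J then h s else 0) = 0 := fun a ha => by
    obtain ⟨k, rfl⟩ := (a6 a).1 ha
    refine Finset.sum_eq_zero fun s _ => ?_
    by_cases hs : s ∈ J
    · simp [(Finset.mem_filter.1 hs).2 k]
    · simp [hs]
  have b5 : ∀ a ∈ G.support, dr a u = 1 := fun a ha => by
    obtain ⟨k, rfl⟩ := (a6 a).1 ha
    exact b2 k
  have hA : Allowed G.support u (fun s => if s ∈ J then h s else 0) h G.support J :=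
    ⟨fun _ => by positivity, fun a ha => (b5 a ha).ge, fun a ha => Finset.mem_filter.2 ⟨ha, b5 a ha⟩,
      fun a ha => (b4 a (Finset.mem_filter.1 ha).1).ge, b4, fun j => (h3 j).1,
      fun j hj => by simp [(b3 j).1 hj], fun j hj => ⟨(b3 j).2 hj, if_pos hj⟩, h4⟩
  have c1 : ∀ a, a ∈ vs G.support J ↔ (∃ k, e k = a) ∨ ∃ j ∈ J, Finsupp.single j 2 = a := fun a => by
    rw [vs, Finset.mem_union, a6, Finset.mem_image]
  have c2 : ∀ a ∈ vs G.support J, ∀ a' ∈ vs G.support J, ∀ s, a s ≠ 0 → a' s ≠ 0 → a = a' := by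
    have c3 : ∀ j s : τ, Finsupp.single j 2 s ≠ 0 → s = j := fun j s h =>
      (Finsupp.single_apply_ne_zero.1 h).1
    intro a ha a' ha' s h5 h6
    rcases (c1 a).1 ha with ⟨k, rfl⟩ | ⟨j, hj, rfl⟩ <;>
      rcases (c1 a').1 ha' with ⟨k', rfl⟩ | ⟨j', hj', rfl⟩
    · rw [hd _ _ s h5 h6]
    · exact (h5 (c3 _ _ h6 ▸ (Finset.mem_filter.1 hj').2 k)).elim
    · exact (h6 (c3 _ _ h5 ▸ (Finset.mem_filter.1 hj).2 k')).elim
    · rw [← c3 _ _ h5, ← c3 _ _ h6]
  have hc : Contrib (vs G.support J) := by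
    refine ⟨indep_of_disj _ (fun h5 => ?_) c2, ?_⟩
    · rcases (c1 0).1 h5 with ⟨k, h6⟩ | ⟨j, -, h6⟩
      · exact a2 k h6
      · simp at h6
    have : (fun _ => 1 : τ → ℚ) = ∑ k, (b k : ℚ)⁻¹ • vec (e k) +
        ∑ j ∈ J, (2 : ℚ)⁻¹ • vec (Finsupp.single j 2) := funext fun s => by
      simp only [Pi.add_apply, Finset.sum_apply, Pi.smul_apply, vec, smul_eq_mul]
      by_cases hs : s ∈ J
      · simp [(Finset.mem_filter.1 hs).2, Finsupp.single_apply, hs]
      · obtain ⟨k, hk⟩ : ∃ k, e k s ≠ 0 := by simpa [J] using hs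
        rw [Finset.sum_eq_single k (fun k' _ h => by
          simp [show e k' s = 0 from by_contra fun h5 => h (hd _ _ s h5 hk)]) (by simp), hb k s hk]
        simp [Finsupp.single_apply, hs, a4]
    rw [this]
    exact add_mem (sum_mem fun k _ => Submodule.smul_mem _ _ (Submodule.subset_span
      ⟨_, (c1 _).2 (.inl ⟨k, rfl⟩), rfl⟩)) (sum_mem fun j hj => Submodule.smul_mem _ _
        (Submodule.subset_span ⟨_, (c1 _).2 (.inr ⟨j, hj, rfl⟩), rfl⟩))
  have hU' : ∀ a, ¬ UApex (vs G.support J) a := fun a ⟨h5, i, h6, _, h7⟩ => by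
    rcases (c1 a).1 h5 with ⟨k, rfl⟩ | ⟨j, -, rfl⟩
    · have := h2 k
      rw [Finset.sum_eq_single i (fun s _ h8 => by_contra fun h9 => h8 (h7 s ⟨h9, fun a' ha' h10 =>
        by_contra fun h11 => h10 (c2 _ ha' _ h5 s h11 h9)⟩)) (by simp)] at this
      omega
    · rw [Finsupp.single_apply] at h6
      split_ifs at h6
      omega
  have hs : ∑ i, u i = α := by
    rw [hα, Finset.sum_comm]
    push_cast
    refine Finset.sum_congr rfl fun k _ => ?_
    have := b1 k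
    have := Nat.cast_ne_zero (R := ℝ).2 (a4 k)
    rw [← Finset.sum_div]
    field_simp
  obtain ⟨d1, d2, d3⟩ := SN.E.red (by simp [hG, coeff_sum, coeff_monomial, a2]) a8 hA hc hU' hs hz
  by_contra hn
  push Not at hn
  refine SN.E.top G hA.h0 d1 d2 d3 ?_ ((SN.E.base f d1 hn).homeo (F' := fun x => eval x G) Φ
    (ℓ := 0) continuousOn_const fun z hz => ?_)
  · rw [← h0]
    refine inter_mem (Φ.open_target.mem_nhds (Φ.map_source hp))
      (Φ.continuousAt_symm (Φ.map_source hp) ?_)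
    rwa [Φ.left_inv hp]
  · simp [hG, ← hΦ z hz, eval_monomial, mon, Finsupp.prod_fintype]

end Pool.Agent.P.MP_9321be_ag.DG
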