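import Pool.Agent.P.MP_9321be_ag.DG.Multi

/-!
Flows that change the top coefficient of one monomial.
-/

set_option linter.unusedSectionVars false

namespace Pool.Agent.P.MP_9321be_ag.DG

open ND Set

variable {n : ℕ}

open Classical in
/-- A solution of `t * q * psi q = t ^ n` that only depends on the leading term of `q`. -/
noncomputable def psi (q : TR n) : TR n :=
  ∑ e ∈ Finset.range n, if ordEq e q then (cf n e q)⁻¹ • tt n ^ (n - e - 1) else 0

theorem cfm_psi {E : Type} [AddCommGroup E] [Module ℂ E] {φ : E → TR n} (h : CFM φ) :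
    CFM fun x => psi (φ x) := by
  classical
  exact CFM.sum _ fun e _ => CFM.ite (CFM.cons_ordEq h e)
    (CFM.smul (h (cf n e)).inv (CFM.const _)) (CFM.const _)

theorem psi_eq {e : ℕ} (he : e < n) {μ : TR n} (h : ¬ tt n ∣ μ) :
    psi (tt n ^ e * μ) = (eps n μ)⁻¹ • tt n ^ (n - e - 1) := by
  have h1 : ordEq e (tt n ^ e * μ) := ⟨dvd_mul_right _ _, fun h1 => h (by
    simpa using (cancel (k := e) (m := 1) (n := n) (by omega) μ).1 h1)⟩
  rw [psi, Finset.sum_eq_single e (fun b _ hb => if_neg fun h2 => hb (h2.unique h1))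
    (fun h2 => (h2 (Finset.mem_range.2 he)).elim), if_pos h1, cf_mul he.le]

theorem exists_ord {q : TR n} {m : ℕ} (h : ¬ tt n ^ m ∣ q) :
    ∃ e < m, ∃ μ, ¬ tt n ∣ μ ∧ q = tt n ^ e * μ := by
  obtain ⟨e, he, ⟨μ, rfl⟩, h2⟩ := exists_ordEq h
  exact ⟨e, he, μ, fun h3 => h2 (by rw [pow_succ]; exact mul_dvd_mul_left _ h3), rfl⟩

theorem mul_psi {q : TR n} (h : ¬ tt n ^ n ∣ q) : q * (tt n * psi q) = tt n ^ n := by
  obtain ⟨e, he, μ, h1, rfl⟩ := exists_ord h
  have h2 : tt n ^ e * (tt n * tt n ^ (n - e - 1)) = tt n ^ n := by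
    rw [← pow_succ', ← pow_add]
    congr 1
    omega
  rw [psi_eq he h1, mul_smul_comm, mul_smul_comm, mul_right_comm, h2, top_mul, smul_smul,
    inv_mul_cancel₀ (mt (eps_eq_zero μ).1 h1), one_smul]

theorem psi_mul {q w : TR n} (h : ¬ tt n ^ n ∣ q) (hw : eps n w = 1) : psi (q * w) = psi q := by
  obtain ⟨e, he, μ, h1, rfl⟩ := exists_ord h
  rw [mul_assoc, psi_eq he h1, psi_eq he (by
    rw [← eps_eq_zero] at h1 ⊢
    simpa [hw] using h1), map_mul, hw, mul_one]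

theorem mon_update {σ R : Type} [Fintype σ] [CommMonoid R] (e : σ →₀ ℕ) {x x' : σ → R} {s : σ}
    {w : R} (h : ∀ r ≠ s, x' r = x r) (h' : x' s = x s * w) : mon e x' = mon e x * w ^ e s := by
  classical
  rw [mon, mon, ← Finset.mul_prod_erase _ _ (Finset.mem_univ s),
    ← Finset.mul_prod_erase _ (fun s => x s ^ e s) (Finset.mem_univ s), h', mul_pow, mul_right_comm,
    Finset.prod_congr rfl fun r hr => by rw [h r (Finset.ne_of_mem_erase hr)]]

theorem binom {R : Type} [CommRing R] (ε : R) (b : ℕ) : ∃ κ, (1 + ε) ^ b = 1 + b * ε + ε ^ 2 * κ := by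
  induction b with
  | zero => exact ⟨0, by simp⟩
  | succ b ih =>
    obtain ⟨κ, h⟩ := ih
    exact ⟨κ + b + ε * κ, by rw [pow_succ, h]; push_cast; ring⟩

theorem exists_eps {x q : TR n} (h : ¬ tt n ^ n ∣ q * x) :
    ∃ ε, tt n * psi q = x * ε ∧ tt n ∣ ε ∧ q * x * ε ^ 2 = 0 := by
  obtain ⟨e, he, μ, h1, rfl⟩ := exists_ord fun h1 => h (h1.mul_right _)
  obtain ⟨m, -, ν, h2, rfl⟩ := exists_ord fun h1 => h (h1.mul_left _)
  have h3 : e + m < n := not_le.1 fun h3 => h (by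
    rw [mul_mul_mul_comm, ← pow_add]; exact (pow_dvd_pow _ h3).mul_right _)
  obtain ⟨k, hk⟩ := Nat.exists_eq_add_of_lt h3
  have h4 := rinv_mul h2
  have h5 : tt n ^ (e + m + k + 1 + 1) = 0 := hk ▸ tt_pow
  refine ⟨(eps n μ)⁻¹ • (tt n ^ (k + 1) * rinv ν), ?_, ?_, ?_⟩
  · rw [psi_eq he h1, mul_smul_comm, mul_smul_comm, show n - e - 1 = m + k by omega]
    congr 1
    linear_combination -(tt n ^ (m + k + 1)) * h4
  · rw [← eps_eq_zero, map_smul, map_mul, map_pow, (eps_eq_zero _).2 dvd_rfl]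
    simp
  · rw [smul_pow, mul_smul_comm, smul_eq_zero]
    right
    linear_combination μ * ν * tt n ^ k * rinv ν ^ 2 * h5

theorem Dat.flow {σ ι J : Type} [Fintype σ] (D : Dat σ ι J) (k : ι) (n : ℕ) :
    ∃ v : (σ → TR n) → σ → TR n, CFM v ∧ (∀ y s, D.a k s = 0 → v y s = 0) ∧
      ∀ y (r : ℂ), ¬ tt n ^ n ∣ mon (D.d k) (tm y) →
        mon (D.a k) (tm (y + r • v y)) = mon (D.a k) (tm y) + r • tt n ^ n ∧
        ¬ tt n ^ n ∣ mon (D.d k) (tm (y + r • v y)) ∧ v (y + r • v y) = v y := by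
  classical
  obtain ⟨s, q, hq, hs⟩ : ∃ s q, D.a k = q + Finsupp.single s 1 ∧
      (D.d k = D.a k ∨ D.d k = q ∧ q s = 0) := by
    by_cases h : D.rig k
    · obtain ⟨s, hs⟩ := Finsupp.ne_iff.1 (D.ne k)
      exact ⟨s, D.a k - Finsupp.single s 1, (Finsupp.sub_add_single_one_cancel hs).symm,
        .inl (D.h1 k h).1⟩
    · obtain ⟨s, h1, h2⟩ := D.h2 k h
      exact ⟨s, _, h2, .inr ⟨rfl, h1⟩⟩
  have b0 : D.a k s ≠ 0 := by simp [hq]
  have b1 : (D.a k s : ℂ) ≠ 0 := Nat.cast_ne_zero.2 b0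
  have hT : ∀ x : σ → TR n, mon (D.a k) x = mon q x * x s := fun x => by
    rw [hq, mon_add, mon_single, pow_one]
  refine ⟨fun y => Pi.single s ((D.a k s : ℂ)⁻¹ • psi (mon q (tm y))),
    (CFM.smul (CF.const _) (cfm_psi (cfm_mon q cfm_tm))).app
      (LinearMap.single ℂ (fun _ : σ => TR n) s),
    fun y r hr => Pi.single_eq_of_ne (fun e : r = s => b0 (e ▸ hr)) _, fun y r hy => ?_⟩
  set y' := y + r • (Pi.single s ((D.a k s : ℂ)⁻¹ • psi (mon q (tm y))) : σ → TR n) with hy'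
  have e1 : ∀ s' ≠ s, tm y' s' = tm y s' := fun s' h => by simp [tm, hy', h]
  have e2 : tm y' s = tm y s + (r * (D.a k s : ℂ)⁻¹) • (tt n * psi (mon q (tm y))) := by
    simp [tm, hy', mul_add, smul_smul]
  rcases hs with hs | ⟨hs, q0⟩
  · rw [hs] at hy ⊢
    rw [hT] at hy
    have h1 : ¬ tt n ^ n ∣ mon q (tm y) := fun h => hy (h.mul_right _)
    have h2 := mul_psi h1
    obtain ⟨ε, a1, a2, a3⟩ := exists_eps hy
    rw [a1, ← mul_smul_comm, ← mul_one_add] at e2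
    rw [a1] at h2
    obtain ⟨κ, hκ⟩ := binom ((r * (D.a k s : ℂ)⁻¹) • ε) (D.a k s)
    have h3 : mon (D.a k) (tm y') = mon (D.a k) (tm y) + r • tt n ^ n := by
      have h4 : (D.a k s : TR n) * (r * (D.a k s : ℂ)⁻¹) • ε = r • ε := by
        rw [← nsmul_eq_mul, ← Nat.cast_smul_eq_nsmul ℂ, smul_smul, mul_comm r, mul_inv_cancel_left₀ b1]
      rw [mon_update _ e1 e2, hκ, h4, hT, ← h2, smul_pow]
      simp only [mul_add, mul_one, mul_smul_comm, smul_mul_assoc, ← mul_assoc, a3, zero_mul,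
        smul_zero, add_zero]
    refine ⟨h3, fun h => hy ?_, ?_⟩
    · rw [h3, hT, Algebra.smul_def] at h
      exact (dvd_add_left (dvd_mul_left _ _)).1 h
    · simp only []
      rw [mon_update _ e1 e2, psi_mul h1 (by simp [(eps_eq_zero ε).2 a2])]
  · have h1 : mon q (tm y') = mon q (tm y) := mon_congr fun s' h => e1 s' fun e => h (e ▸ q0)
    have h2 : D.a k s = 1 := by simp [hq, q0]
    rw [hs] at hy ⊢
    refine ⟨?_, h1 ▸ hy, by simp only [h1]⟩
    rw [hT, hT, h1, e2, mul_add, mul_smul_comm, mul_psi hy, h2]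
    simp

end Pool.Agent.P.MP_9321be_ag.DG
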