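import Pool.Agent.P.MP_9321be_ag.ND.RtBasic

/-!
Sequences that are killed by products of difference operators.
-/

namespace Pool.Agent.P.MP_9321be_ag.DG

open ND

variable {R : Type 1} [CommRing R]

/-- Sequences killed, from some index on, by a product of operators `E ^ N - u ^ s`, `P s`. -/
inductive Kil (u : R) (N : ℕ) (P : ℕ → Prop) : (ℕ → R) → Prop
  | zero (a : ℕ → R) (l₀ : ℕ) : (∀ l, l₀ ≤ l → a l = 0) → Kil u N P a
  | step (a : ℕ → R) (s : ℕ) : P s → Kil u N P (fun l => a (l + N) - u ^ s * a l) → Kil u N P a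

variable {u : R} {N : ℕ} {P Q : ℕ → Prop} {a b : ℕ → R}

theorem Kil.mono (h : Kil u N P a) (hP : ∀ s, P s → Q s) : Kil u N Q a := by
  induction h with
  | zero a l₀ h => exact .zero a l₀ h
  | step a s hs _ ih => exact .step a s (hP s hs) ih

theorem Kil.congr (h : Kil u N P a) : ∀ {b : ℕ → R} (l₀ : ℕ), (∀ l, l₀ ≤ l → b l = a l) →
    Kil u N P b := by
  induction h with
  | zero a l₁ h =>
    exact fun l₀ e => .zero _ (l₀ + l₁) fun l hl => by rw [e l (by omega), h l (by omega)]
  | step a s hs _ ih =>
    exact fun l₀ e => .step _ s hs (ih l₀ fun l hl => by rw [e l hl, e _ (by omega)])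

theorem Kil.shift (h : Kil u N P a) (k : ℕ) : Kil u N P fun l => a (l + k) := by
  induction h with
  | zero a l₀ h => exact .zero _ l₀ fun l hl => h _ (by omega)
  | step a s hs _ ih => exact .step _ s hs (ih.congr 0 fun l _ => by rw [add_right_comm])

theorem Kil.unshift (k : ℕ) (h : Kil u N P a) : ∀ {b : ℕ → R}, (∀ l, b (l + k) = a l) →
    Kil u N P b := by
  induction h with
  | zero a l₀ h =>
    exact fun e => .zero _ (l₀ + k) fun l hl => by
      rw [← Nat.sub_add_cancel (show k ≤ l by omega), e, h _ (by omega)]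
  | step a s hs _ ih => exact fun e => .step _ s hs (ih fun l => by rw [add_right_comm, e, e])

theorem Kil.smul (h : Kil u N P a) (c : R) : Kil u N P fun l => c * a l := by
  induction h with
  | zero a l₀ h => exact .zero _ l₀ fun l hl => by rw [h l hl, mul_zero]
  | step a s hs _ ih => exact .step _ s hs (ih.congr 0 fun l _ => by ring)

theorem Kil.op (h : Kil u N P a) (c : R) : Kil u N P fun l => a (l + N) - c * a l := by
  induction h with
  | zero a l₀ h => exact .zero _ l₀ fun l hl => by rw [h l hl, h _ (by omega)]; simp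
  | step a s hs _ ih => exact .step _ s hs (ih.congr 0 fun l _ => by ring)

theorem Kil.add (h : Kil u N P a) : ∀ {b : ℕ → R}, Kil u N P b → Kil u N P fun l => a l + b l := by
  induction h with
  | zero a l₀ h => exact fun hb => hb.congr l₀ fun l hl => by rw [h l hl, zero_add]
  | step a s hs _ ih => exact fun hb => .step _ s hs ((ih (hb.op (u ^ s))).congr 0 fun l _ => by ring)

theorem Kil.sub (h : Kil u N P a) (h' : Kil u N P b) : Kil u N P fun l => a l - b l :=
  (h.add (h'.smul (-1))).congr 0 fun l _ => by ring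

theorem kil_sum {α : Type} (s : Finset α) {F : α → ℕ → R} (h : ∀ i ∈ s, Kil u N P (F i)) :
    Kil u N P fun l => ∑ i ∈ s, F i l := by
  classical
  induction s using Finset.induction_on with
  | empty => exact .zero _ 0 (by simp)
  | insert i s hi ih =>
    simp only [Finset.sum_insert hi]
    exact (h i (Finset.mem_insert_self _ _)).add (ih fun j hj => h j (Finset.mem_insert_of_mem hj))

/-- The exponents add in a termwise product. -/
theorem Kil.mul {S : ℕ → Prop} (hS : ∀ s s', P s → Q s' → S (s + s')) (h : Kil u N P a) :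
    ∀ {b : ℕ → R}, Kil u N Q b → Kil u N S fun l => a l * b l := by
  induction h with
  | zero a l₀ h => exact fun _ => .zero _ l₀ fun l hl => by rw [h l hl, zero_mul]
  | step a s hs _ ih =>
    intro b hb
    induction hb with
    | zero b l₀ h => exact .zero _ l₀ fun l hl => by rw [h l hl, mul_zero]
    | step b s' hs' h1 ih' =>
      exact .step _ _ (hS _ _ hs hs') (((ih ((Kil.step b s' hs' h1).shift N)).add
        (ih'.smul (u ^ s))).congr 0 fun l _ => by ring)

/-- First order recursions. -/
theorem Kil.recur {r : ℕ} (hr : P (r * N)) (hb : Kil u N P b)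
    (h : ∀ l, a (l + 1) = u ^ r * a l + b l) : Kil u N P a := by
  have key : ∀ k, Kil u N P fun l => a (l + k) - u ^ (r * k) * a l := fun k => by
    induction k with
    | zero => exact .zero _ 0 (by simp)
    | succ k ih =>
      exact ((ih.smul (u ^ r)).add (hb.shift k)).congr 0 fun l _ => by
        rw [← add_assoc, h]; ring
  exact .step _ _ hr (key N)

theorem Kil.rt {Q : ℚ → Prop} (hN : 0 < N) (hP : ∀ s, P s → 0 < s ∧ Q ((s : ℚ) / N))
    (h : Kil u N P a) : Rt u Q (PowerSeries.mk a) := by
  induction h with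
  | zero a l₀ h => exact rt_of_eventually_zero (l₀ := l₀) fun l hl => by simp [h l hl]
  | step a s hs _ ih =>
    refine Rt.of_mul hN (hP s hs).1 (hP s hs).2 (((rt_X.pow N).mul ih).congr_ev (l₀ := N)
      fun l hl => ?_)
    obtain ⟨l, rfl⟩ := Nat.exists_eq_add_of_le' hl
    simp only [sub_mul, mul_assoc, one_mul, map_sub, PowerSeries.coeff_C_mul,
      PowerSeries.coeff_X_pow_mul, PowerSeries.coeff_mk]

end Pool.Agent.P.MP_9321be_ag.DG
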