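import Pool.Agent.P.MP_9321be_ag.DG.EChart

/-!
The monodromy conjecture for systems of linear combinations of monomials in disjoint sets of
variables.
-/

set_option linter.unusedSectionVars false

namespace Pool.Agent.P.MP_9321be_ag.DG

open ND NC Set MvPolynomial Filter Topology Module

namespace Dat

variable {σ ι J : Type} [Fintype σ] [DecidableEq σ] [Fintype ι] [DecidableEq ι] [Fintype J]
  [DecidableEq J] (D : Dat σ ι J)

theorem glue {X : Type} [Nonempty X] (x : ι → σ → X) :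
    ∃ y : σ → X, ∀ i s, D.a i s ≠ 0 → y s = x i s := by
  have : ∀ s, ∃ y : X, ∀ i, D.a i s ≠ 0 → y = x i s := fun s => by
    by_cases h : ∃ i, D.a i s ≠ 0
    · obtain ⟨i, hi⟩ := h
      exact ⟨x i s, fun k hk => by rw [D.dis i k s hi hk]⟩
    · exact ⟨Classical.arbitrary X, fun i hi => (h ⟨i, hi⟩).elim⟩
  choose y hy using this
  exact ⟨y, fun i s => hy s i⟩

theorem weights : ∃ (q : σ → ℕ+) (N : ℕ), ∀ i, ∑ s, q s * D.a i s = N := by
  have h1 : ∀ i, 0 < ∑ s, D.a i s := fun i =>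
    let ⟨s, hs⟩ := Finsupp.ne_iff.1 (D.ne i)
    (Nat.pos_of_ne_zero hs).trans_le (Finset.single_le_sum (f := D.a i) (fun _ _ => Nat.zero_le _)
      (Finset.mem_univ s))
  have h2 := fun i => Finset.dvd_prod_of_mem (fun i => ∑ s, D.a i s) (Finset.mem_univ i)
  obtain ⟨q, hq⟩ := D.glue fun i _ => (⟨_, Nat.div_pos (Nat.le_of_dvd
    (Finset.prod_pos fun i _ => h1 i) (h2 i)) (h1 i)⟩ : ℕ+)
  refine ⟨q, _, fun i => Eq.trans ?_ (Nat.div_mul_cancel (h2 i))⟩
  rw [Finset.mul_sum]
  refine Finset.sum_congr rfl fun s _ => ?_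
  by_cases h : D.a i s = 0
  · simp [h]
  · rw [hq i s h]
    rfl

theorem inside (i : ι) (z : ℂ) : ∃ (s : σ) (x : σ → ℂ), D.a i s ≠ 0 ∧ mon (D.a i) x = z ∧
    ((D.rig i → z ≠ 0) → mon ((D.a i).erase s) x * x s ^ (D.a i s - 1) ≠ 0) := by
  obtain ⟨s, h1, h2⟩ : ∃ s, D.a i s ≠ 0 ∧ (¬ D.rig i → D.a i s = 1) := by
    by_cases h : D.rig i
    · exact (Finsupp.ne_iff.1 (D.ne i)).imp fun s hs => ⟨hs, fun h' => (h' h).elim⟩
    · obtain ⟨s, h1, h2⟩ := D.h2 i h
      exact ⟨s, by simp [h2], fun _ => by simp [h1, h2]⟩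
  obtain ⟨r, rfl⟩ := IsAlgClosed.exists_pow_nat_eq z (Nat.pos_of_ne_zero h1)
  have h3 : ∀ e : σ →₀ ℕ, mon e (Function.update 1 s r) = r ^ e s := fun e => by
    rw [mon_update e (x := 1) (w := r) (fun _ h => Function.update_of_ne h _ _) (by simp)]
    simp [mon]
  refine ⟨s, Function.update 1 s r, h1, h3 _, fun h => ?_⟩
  by_cases h4 : D.rig i
  · simp [h3, show r ≠ 0 from fun e => h h4 (by simp [e, h1])]
  · simp [h3, h2 h4]

theorem outside (i : ι) {b : ℕ} (h0 : b ≠ 0) (h : ∃ s, D.d i s = b) : ∃ s, D.a i s = b ∧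
    2 ≤ ∑ r, (D.a i).filter (fun r => D.a i r = b) r := by
  obtain ⟨s, rfl⟩ := h
  by_cases h : D.rig i
  · obtain ⟨h1, h2⟩ := D.h1 i h
    rw [h1] at h0 ⊢
    refine ⟨s, rfl, le_trans ?_
      (Finset.single_le_sum (fun _ _ => Nat.zero_le _) (Finset.mem_univ s))⟩
    have := h2 s
    rw [Finsupp.filter_apply, if_pos rfl]
    omega
  obtain ⟨t, h1, h2⟩ := D.h2 i h
  have h3 : t ≠ s := fun e => h0 (e ▸ h1)
  have h4 : D.a i s = D.d i s := by simp [h2, h3.symm]
  have h5 : D.a i t = 1 := by simp [h2, h1]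
  refine ⟨s, h4, le_trans ?_ (Finset.sum_le_sum_of_subset (Finset.subset_univ {t, s}))⟩
  rw [Finset.sum_pair h3, Finsupp.filter_apply, Finsupp.filter_apply, if_pos h4]
  split_ifs <;> omega

end Dat

namespace Dat

variable {σ ι J : Type} [Fintype σ] [DecidableEq σ] [Fintype ι] [DecidableEq ι] [Fintype J]
  [DecidableEq J] (D : Dat σ ι (Option J))

theorem eval_pol (z : σ ⊕ J → ℂ) : eval z D.pol = ∑ i, mon (D.a i) (fun s => z (.inl s)) *
    (D.c i none + (fun j => z (.inr j)) ⬝ᵥ fun j => D.c i (some j)) := by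
  have : ∀ j, eval (fun s => z (.inl s)) (D.eqs j) = _ := D.aeval_eqs fun s => z (.inl s)
  simp only [pol, hyper, map_add, map_sum, map_mul, eval_X, eval_rename, Function.comp_def, this,
    dotProduct, Finset.mul_sum, smul_eq_mul, mul_add, Finset.sum_add_distrib]
  rw [Finset.sum_comm]
  exact congrArg₂ _ (Finset.sum_congr rfl fun i _ => mul_comm _ _)
    (Finset.sum_congr rfl fun i _ => Finset.sum_congr rfl fun j _ => by ring)

theorem near {α : ℚ} (h : D.Cand α) (hz : ∀ k : ℤ, α ≠ k) :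
    NearEig D.pol (Complex.exp (-(2 * Real.pi * Complex.I * α))) := by
  obtain ⟨F, b, hF, ⟨⟨S, z, s1, s2, s3, s4⟩, hA⟩, hb, hα⟩ := h
  obtain ⟨B, b1, -, b2, b3⟩ := exists_linearIndepOn_extension (linearIndepOn_empty ℂ D.c)
    (empty_subset S)
  lift B to Finset ι using toFinite _
  have li' : LinearIndependent ℂ fun k : B => D.c k := b3
  have b4 : ∀ i ∈ F, D.c i ∈ Submodule.span ℂ (range fun k : B => D.c k) := fun i hi => by
    rw [show (range fun k : B => D.c k) = D.c '' B from (image_eq_range _ _).symm]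
    exact Submodule.span_le.2 b2 (s2 i hi)
  have b5 : D.rk F = B.card := by
    rw [rk, le_antisymm (D.W_le b4) (Submodule.span_le.2 (forall_mem_range.2 fun k =>
      D.mem_W (s1 (b1 k.2)))), finrank_span_eq_card li', Fintype.card_coe]
  have li : LinearIndependent ℂ fun (k : B) j => D.c k (some j) :=
    Fintype.linearIndependent_iff.2 fun g hg => Fintype.linearIndependent_iff.1 li' g
      (funext fun j => by
        cases j with
        | none => simp [fun k : B => hA k (s1 (b1 k.2))]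
        | some j => simpa using congrFun hg j)
  let e := (Basis.extend li.linearIndepOn_id).indexEquiv (Pi.basisFun ℂ J)
  obtain ⟨l, l1, l2⟩ := exists_dual (D.W F) D.c
  have l3 : ∀ v : Option J → ℂ, (fun j => l (Pi.single (some j) 1)) ⬝ᵥ (fun j => v (some j)) =
      l v - v none * l (Pi.single none 1) := fun v => by
    have : ∀ j : Option J, (fun k => if j = k then 1 else 0) = (Pi.single j 1 : _ → ℂ) :=
      fun j => funext fun k => by simp [Pi.single_apply, eq_comm]
    rw [l.pi_apply_eq_sum_univ v, Fintype.sum_option]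
    simp [this, dotProduct, mul_comm]
  have h1 : ∀ i, ∃ (s : σ) (x : σ → ℂ), D.a i s ≠ 0 ∧ (i ∈ F → mon (D.a i) x = z i ∧
      ((D.rig i → z i ≠ 0) → mon ((D.a i).erase s) x * x s ^ (D.a i s - 1) ≠ 0)) ∧
      (i ∉ F → D.a i s = b i ∧ (∀ r, x r = 0 ↔ D.a i r = b i) ∧
        2 ≤ ∑ r, (D.a i).filter (fun r => D.a i r = b i) r) := fun i => by
    by_cases hi : i ∈ F
    · obtain ⟨s, x, a1, a2⟩ := D.inside i (z i)
      exact ⟨s, x, a1, fun _ => a2, fun h => (h hi).elim⟩
    · obtain ⟨s, a1, a2⟩ := D.outside i (hb i hi).1 (hb i hi).2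
      exact ⟨s, fun r => if D.a i r = b i then 0 else 1, a1 ▸ (hb i hi).1, fun h => (hi h).elim,
        fun _ => ⟨a1, by simp, a2⟩⟩
  choose piv ξ c1 c2 c3 using h1
  obtain ⟨x, hx⟩ := D.glue ξ
  obtain ⟨q, N, hq⟩ := D.weights
  let p : ℂ → σ ⊕ J → ℂ := fun r =>
    Sum.elim (fun s => r ^ (q s : ℕ) * x s) fun j => r * l (Pi.single (some j) 1)
  have p1 : Tendsto p (𝓝[≠] 0) (𝓝 0) := (Continuous.tendsto' (continuous_pi (by
    rintro (s | j) <;> simp only [p, Sum.elim_inl, Sum.elim_inr] <;> fun_prop)) 0 0 (by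
      funext t
      rcases t with s | j <;> simp [p])).mono_left nhdsWithin_le_nhds
  have p2 : ∀ᶠ r in 𝓝[≠] (0 : ℂ), ∀ i, i ∉ F →
      D.c i none + r * (l (D.c i) - D.c i none * l (Pi.single none 1)) ≠ 0 :=
    eventually_all.2 fun i => by
      by_cases h : D.c i none = 0
      · exact eventually_mem_nhdsWithin.mono fun r hr hi => by
          simpa [h] using ⟨hr, l2 i fun h' => hi (hF.2 i (Finset.mem_univ _) h')⟩
      · exact ((ContinuousAt.eventually_ne (by fun_prop) (by simpa using h)).filter_mono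
          nhdsWithin_le_nhds).mono fun r hr _ => hr
  intro U hU
  obtain ⟨r, ⟨r1, r4⟩, r2⟩ := (((p1.eventually (eventually_mem_nhds_iff.2 hU)).and p2).and
    self_mem_nhdsWithin).exists
  have r3 : r ≠ 0 := r2
  have m1 : ∀ e : σ →₀ ℕ, (mon e fun s => p r (.inl s)) = r ^ (∑ s, q s * e s) * mon e x :=
    fun e => by rw [← mon_pow, ← mon_mul]; rfl
  refine Dat.chart { D with c := fun i j => D.c i (some j) } D.eval_pol hA
    (fun k hk => s1 (b1 hk)) ((Basis.extend li.linearIndepOn_id).reindex e)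
    (γ := fun k => e ⟨_, Basis.subset_extend _ ⟨k, rfl⟩⟩)
    (fun k k' h => li.injective (congrArg Subtype.val (e.injective h))) (fun k => by simp)
    (fun i hi => ?_) b piv c1 (p r) (fun i => ?_) ?_ (fun k hk => ?_)
    (fun i hi => ⟨(c3 i hi).1, fun s hs => ?_, (c3 i hi).2.2⟩) (b5 ▸ hα) hz r1
  · obtain ⟨g, hg⟩ := (Submodule.mem_span_range_iff_exists_fun ℂ).1 (b4 i hi)
    exact (Submodule.mem_span_range_iff_exists_fun ℂ).2
      ⟨g, funext fun j => by simpa using congrFun hg (some j)⟩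
  · rw [show (fun j => p r (.inr j)) = r • fun j => l (Pi.single (some j) 1) from rfl,
      smul_dotProduct, l3]
    exact ⟨fun h => by_contra fun h' => r4 i h' h, fun h => by simp [hA i h, l1 _ (D.mem_W h)]⟩
  · funext j
    have := congrArg (r ^ N * ·) (congrFun s3 (some j))
    simp only [Finset.sum_apply, Pi.smul_apply, smul_eq_mul, Pi.zero_apply, mul_zero,
      Finset.mul_sum] at this ⊢
    rw [← this]
    exact Finset.sum_congr rfl fun i hi => by
      rw [m1, hq, mon_congr (hx i), (c2 i hi).1, mul_assoc]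
  · have := (c2 k (s1 (b1 hk))).2 (s4 k (b1 hk))
    rw [← mon_congr (x := x) (fun s hs => hx k s fun e => hs (by
      by_cases h : s = piv k <;> simp [h, e])), ← hx k _ (c1 k)] at this
    rw [m1]
    simpa [p, r3, mul_pow] using this
  · simp [p, r3, hx i s hs, (c3 i hi).2.1]

theorem conjecture (hf : D.pol ≠ 0) : MonodromyConjecture D.pol := by
  have h0 : coeff 0 D.pol = 0 := by
    simp [← constantCoeff_eq, pol, hyper, eqs, constantCoeff_monomial, D.ne]
  obtain ⟨S, h1, h2⟩ := (D.rt_zeta hf).mono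
    (Q := fun α => NearEig D.pol (Complex.exp (-(2 * Real.pi * Complex.I * α))))
    fun α h => by
      by_cases hz : ∃ k : ℤ, α = k
      · obtain ⟨k, rfl⟩ := hz
        exact SN.near_int hf h0 k
      · push Not at hz
        exact D.near (h.resolve_left (hz 1)) hz
  refine fun U hU => ⟨S, fun q hq => ⟨(h1 q hq).1, (h1 q hq).2.1⟩, h2, fun q hq => ?_⟩
  convert (h1 q hq).2.2 U hU using 6
  push_cast
  ring

end Dat

theorem conjecture {σ ι J : Type} [Fintype σ] [Fintype ι] [Fintype J] (a : ι → σ →₀ ℕ)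
    (ha : ∀ i, a i ≠ 0) (hd : Pairwise fun i k => Disjoint (a i).support (a k).support)
    (A₀ : ι → ℂ) (A : J → ι → ℂ) (hf : rename Sum.inl (∑ i, monomial (a i) (A₀ i)) +
      hyper (fun j => ∑ i, monomial (a i) (A j i)) ≠ 0) :
    MonodromyConjecture (rename Sum.inl (∑ i, monomial (a i) (A₀ i)) +
      hyper fun j => ∑ i, monomial (a i) (A j i)) := by
  classical
  have : ∀ i, ∃ d : σ →₀ ℕ, ((∀ s, a i s ≠ 1) → d = a i) ∧
      (¬ (∀ s, a i s ≠ 1) → ∃ s, d s = 0 ∧ a i = d + Finsupp.single s 1) := fun i => by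
    by_cases h : ∀ s, a i s ≠ 1
    · exact ⟨_, fun _ => rfl, fun h' => (h' h).elim⟩
    · obtain ⟨s, hs⟩ := not_forall.1 h
      exact ⟨(a i).erase s, fun h' => (h h').elim, fun _ => ⟨s, by simp, by
        rw [← not_not.1 hs, Finsupp.erase_add_single]⟩⟩
  choose d h1 h2 using this
  exact Dat.conjecture ⟨a, d, fun i j => j.elim (A₀ i) (A · i), fun i => ∀ s, a i s ≠ 1, ha,
    fun i k s h h' => by_contra fun e => Finset.disjoint_left.1 (hd e)
      (Finsupp.mem_support_iff.2 h) (Finsupp.mem_support_iff.2 h'),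
    fun i h => ⟨h1 i h, h⟩, h2⟩ hf

end Pool.Agent.P.MP_9321be_ag.DG
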