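import Pool.Agent.P.MP_9321be_ag.DG.Base

/-!
The measure of the arcs along which several monomials vanish to the same order.
-/

set_option linter.unusedSectionVars false

namespace Pool.Agent.P.MP_9321be_ag.DG

open ND Set

theorem eps_trunc {m n : ℕ} (h : m ≤ n) (μ : TR n) : eps m (Link.trunc h μ) = eps n μ := by
  have h1 := (Link.dvd_trunc h (k := 1) (by omega) (μ - eps n μ • 1)).2
    (by rw [pow_one, ← eps_eq_zero]; simp)
  rw [pow_one, ← eps_eq_zero] at h1
  simpa [sub_eq_zero] using h1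

theorem isUnit_of {n : ℕ} {y : TR n} (h : ¬ tt n ∣ y) : IsUnit y :=
  IsUnit.of_mul_eq_one_right _ (rinv_mul h)

namespace Dat

variable {σ ι J : Type} [Fintype σ] [DecidableEq σ] [Fintype ι] [DecidableEq ι] [Fintype J]
  (D : Dat σ ι J) (G : Finset ι) {Θ : (ι → ℂ) → Prop}

/-- The variables in `U` are units, and all variables are rescaled. -/
noncomputable def M (Θ : (ι → ℂ) → Prop) (U : Finset σ) (v : σ → ℕ) (n : ℕ) : MM :=
  pr {y : σ → TR n | (∀ s ∈ U, ¬ tt n ∣ y s) ∧ D.EvM G Θ fun s => tt n ^ v s * y s}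

theorem cons_M (hΘ : Cons {z | Θ z}) (U : Finset σ) (v : σ → ℕ) (n : ℕ) :
    Cons {y : σ → TR n | (∀ s ∈ U, ¬ tt n ∣ y s) ∧ D.EvM G Θ fun s => tt n ^ v s * y s} :=
  (cons_forall_mem U fun s _ => ((CFM.id.apply s).cons_dvd _).not).and
    (D.cons_EvM (fun s => (CFM.const _).mul (CFM.id.apply s)) G hΘ)

theorem M_peel (hΘ : Cons {z | Θ z}) {U : Finset σ} {s : σ} (hs : s ∉ U) (v : σ → ℕ) (n : ℕ) :
    D.M G Θ U v n = D.M G Θ (insert s U) v n + lefInv * D.M G Θ U (v + Pi.single s 1) n := by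
  have h1 := pr_tt {s} (D.cons_M G hΘ U v n)
  simp only [Finset.mem_singleton, forall_eq, Finset.card_singleton, pow_one] at h1
  rw [M, pr_split (D.cons_M G hΘ U v n) ((CFM.id.apply s).cons_dvd (tt n)), h1, add_comm]
  congr 1
  · exact pr_congr fun x => by simp only [Finset.forall_mem_insert, and_assoc]
  · congr 1
    refine pr_congr fun x => and_congr (forall₂_congr fun r hr => ?_) (iff_of_eq ?_)
    · rw [if_neg fun e : r = s => hs (e ▸ hr)]
    · congr 1
      funext r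
      by_cases e : r = s
      · simp [e, pow_succ, mul_assoc]
      · simp [e]

theorem M_shift (hΘ : Cons {z | Θ z}) (U : Finset σ) (v : σ → ℕ) {w : σ → ℕ} {N : ℕ}
    (hw : ∀ i ∈ G, ∑ s, w s * D.d i s = N) (n : ℕ) :
    D.M G Θ U (v + w) (n + N) = D.M G Θ U v n := by
  have h : n ≤ n + N := by omega
  rw [M, M, ← pr_trunc h (D.cons_M G hΘ U v n)]
  refine pr_congr fun y => and_congr (forall₂_congr fun s _ => not_congr ?_) ?_
  · simpa using (Link.dvd_trunc h (k := 1) (by omega) (y s)).symm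
  have e1 : ∀ i ∈ G, mon (D.d i) (fun s => tt (n + N) ^ (v + w) s * y s) =
      tt (n + N) ^ N * mon (D.d i) fun s => tt (n + N) ^ v s * y s := fun i hi => by
    have := mon_pow (D.d i) (tt (n + N)) w
    rw [hw i hi] at this
    rw [← this, ← mon_mul]
    exact mon_congr fun s _ => by rw [Pi.add_apply]; ring
  have e2 : ∀ i, mon (D.d i) (fun s => tt n ^ v s * Link.trunc h (y s)) =
      Link.trunc h (mon (D.d i) fun s => tt (n + N) ^ v s * y s) := fun i => by
    simp only [map_mon, map_mul, map_pow, trunc_tt]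
  have e3 : ∀ Y : TR (n + N), tt (n + N) ^ (n + N) ∣ tt (n + N) ^ N * Y ↔ tt (n + N) ^ n ∣ Y :=
    fun Y => by
      have := cancel (k := N) (m := n) (n := n + N) (by omega) Y
      rwa [add_comm N n] at this
  have e4 : (∀ i ∈ G, tt (n + N) ^ (n + N) ∣ mon (D.d i) fun s => tt (n + N) ^ (v + w) s * y s) ↔
      ∀ i ∈ G, tt (n + N) ^ n ∣ mon (D.d i) fun s => tt (n + N) ^ v s * y s :=
    forall₂_congr fun i hi => by rw [e1 i hi, e3]
  simp only [EvM, e4, e2, Link.dvd_trunc h n.le_succ]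
  refine and_congr_right fun h1 => iff_of_eq (congrArg Θ (funext fun i => ?_))
  by_cases hi : i ∈ G
  · obtain ⟨μ, hμ⟩ := h1 i hi
    rw [zc, zc, if_pos hi, if_pos hi, e1 i hi, e2, hμ, ← mul_assoc, ← pow_add, add_comm N n,
      cf_mul le_rfl, map_mul, map_pow, trunc_tt, cf_mul le_rfl, eps_trunc]
  · rw [zc, zc, if_neg hi, if_neg hi]

theorem M_zero {U : Finset σ} (v : σ → ℕ) {i : ι} (hi : i ∈ G) (h : ∀ s, D.d i s ≠ 0 → s ∈ U)
    {n : ℕ} (hn : ∑ s, v s * D.d i s + 1 ≤ n) : D.M G Θ U v n = 0 := by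
  rw [M, ← pr_empty (E := σ → TR n)]
  congr 1
  refine eq_empty_of_forall_notMem fun y hy => ?_
  have h1 := hy.2.1 i hi
  have h2 : IsUnit (mon (D.d i) y) := IsUnit.prod_univ_iff.2 fun s => by
    by_cases e : D.d i s = 0
    · simp [e]
    · exact (isUnit_of (hy.1 s (h s e))).pow _
  rw [mon_mul, mon_pow, h2.dvd_mul_right, tt_pow_dvd_iff n.le_succ] at h1
  omega

theorem kil_M (hΘ : Cons {z | Θ z}) {N : ℕ} (hN : ∀ i s, D.d i s ≠ 0 → D.d i s ∣ N)
    (U : Finset σ) : ∀ v, Kil lefInv N (D.Sl N G) (D.M G Θ U v) := by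
  induction U using WellFoundedGT.induction with
  | ind U ih =>
  intro v
  by_cases h : ∃ i ∈ G, ∀ s, D.d i s ≠ 0 → s ∈ U
  · obtain ⟨i, hi, h⟩ := h
    exact .zero _ _ fun n hn => D.M_zero G v hi h hn
  have h1 : ∀ i, ∃ s, i ∈ G → D.d i s ≠ 0 ∧ s ∉ U := fun i => by
    by_cases hi : i ∈ G
    · push Not at h
      exact (h i hi).imp fun s hs _ => hs
    · exact (Finsupp.ne_iff.1 (D.ne i)).imp fun s _ h => (hi h).elim
  choose p hp using h1
  have k1 : ∀ s ∉ U, ∀ k v, Kil lefInv N (D.Sl N G) fun n =>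
      D.M G Θ U v n - lefInv ^ k * D.M G Θ U (v + Pi.single s k) n := fun s hs k => by
    induction k with
    | zero => exact fun v => .zero _ 0 (by simp)
    | succ k ih' =>
      refine fun v => ((ih _ (Finset.ssubset_insert hs) v).add
        ((ih' (v + Pi.single s 1)).smul lefInv)).congr 0 fun n _ => ?_
      rw [D.M_peel G hΘ hs v, add_assoc v, ← Pi.single_add, add_comm 1 k]
      ring
  have k2 : ∀ (k : ι → ℕ) (G' : Finset ι), G' ⊆ G → ∀ v, Kil lefInv N (D.Sl N G) fun n =>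
      D.M G Θ U v n - lefInv ^ (∑ i ∈ G', k i) *
        D.M G Θ U (v + ∑ i ∈ G', Pi.single (p i) (k i)) n := fun k G' => by
    induction G' using Finset.induction_on with
    | empty => exact fun _ v => .zero _ 0 (by simp)
    | insert i G' hi ih' =>
      refine fun hG v => ((k1 _ (hp i (hG (Finset.mem_insert_self _ _))).2 (k i) v).add
        ((ih' ((Finset.subset_insert _ _).trans hG) (v + Pi.single (p i) (k i))).smul
          (lefInv ^ k i))).congr 0 fun n _ => ?_
      rw [Finset.sum_insert hi, Finset.sum_insert hi, add_assoc v]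
      ring
  refine .step _ _ ⟨fun i => D.d i (p i), fun i hi => ⟨(hp i hi).1, _, rfl⟩, rfl⟩
    (((k2 (fun i => N / D.d i (p i)) G le_rfl v).shift N).congr 0 fun n _ => ?_)
  rw [D.M_shift G hΘ U v fun i hi => ?_]
  simp only [Finset.sum_apply, Finset.sum_mul]
  rw [Finset.sum_comm, Finset.sum_eq_single i (fun k hk e => ?_) fun h => (h hi).elim]
  · simp [Pi.single_apply, Nat.div_mul_cancel (hN _ _ (hp i hi).1)]
  · have : D.d i (p k) = 0 := by_contra fun h0 => e (D.dis k i (p k)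
      ((Nat.pos_of_ne_zero (hp k hk).1).trans_le (D.d_le _ _)).ne'
      ((Nat.pos_of_ne_zero h0).trans_le (D.d_le _ _)).ne')
    simp [Pi.single_apply, this]

theorem kil_B (hΘ : Cons {z | Θ z}) {N : ℕ} (hN : ∀ i s, D.d i s ≠ 0 → D.d i s ∣ N) :
    Kil lefInv N (D.Sl N G) (D.B G Θ) :=
  (D.kil_M G hΘ hN ∅ 1).congr 0 fun n _ => pr_congr fun y => by simp; rfl

end Dat

end Pool.Agent.P.MP_9321be_ag.DG
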