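import Pool.Agent.P.MP_9321be_ag.DG.Flow

/-!
The recursion from one level to the next.
-/

set_option linter.unusedSectionVars false

namespace Pool.Agent.P.MP_9321be_ag.DG

open ND Set

theorem exists_dual {V ι : Type} [AddCommGroup V] [Module ℂ V] [Finite ι] (W : Submodule ℂ V)
    (v : ι → V) : ∃ l : V →ₗ[ℂ] ℂ, (∀ x ∈ W, l x = 0) ∧ ∀ i, v i ∉ W → l (v i) ≠ 0 := by
  obtain ⟨l, hl⟩ := Module.exists_dual_forall_apply_ne_zero (K := ℂ)
    (fun i : {i // v i ∉ W} => W.mkQ (v i)) fun i => by simpa using i.2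
  exact ⟨l ∘ₗ W.mkQ, fun x hx => by simp [(Submodule.Quotient.mk_eq_zero W).2 hx],
    fun i hi => hl ⟨i, hi⟩⟩

namespace Dat

variable {σ ι J : Type} [Fintype σ] [DecidableEq σ] [Fintype ι] [DecidableEq ι] [Fintype J]
  (D : Dat σ ι J) {n L : ℕ} {F F' : Finset ι} {x x' : σ → TR n}

theorem good (h : D.EvH L F x) : D.Good F := by
  obtain ⟨l, l1, l2⟩ := exists_dual ((Ideal.span {tt n ^ L}).restrictScalars ℂ)
    fun i => mon (D.a i) x
  simp only [Submodule.restrictScalars_mem, Ideal.mem_span_singleton] at l1 l2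
  refine ⟨D.act L F x, fun i => l (mon (D.a i) x), fun i hi => hi.1, h.2, funext fun j => ?_,
    fun i hi hr => l2 i ((D.h1 i hr).1 ▸ hi.2)⟩
  simpa [g, mul_comm] using l1 _ (h.1 j)

theorem g_sub (h : F' ⊆ F) (x : σ → TR n) (j : J) :
    D.g F x j = D.g F' x j + ∑ i ∈ F \ F', D.c i j • mon (D.a i) x := by
  rw [g, ← Finset.sum_sdiff h, add_comm, g]

theorem g_dvd (h : F' ⊆ F) (h1 : ∀ i ∈ F \ F', tt n ^ L ∣ mon (D.d i) x) (j : J) :
    tt n ^ L ∣ D.g F x j ↔ tt n ^ L ∣ D.g F' x j := by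
  rw [D.g_sub h]
  exact dvd_add_left (Finset.dvd_sum fun i hi => by
    rw [Algebra.smul_def]; exact ((h1 i hi).trans (D.d_dvd i x)).mul_left _)

theorem act_eq (h : F' ⊆ F) (h1 : ∀ i ∈ F \ F', tt n ^ L ∣ mon (D.d i) x) :
    D.act L F x = D.act L F' x := Set.ext fun k =>
  ⟨fun hk => ⟨by_contra fun e => hk.2 (h1 k (Finset.mem_sdiff.2 ⟨hk.1, e⟩)), hk.2⟩,
    fun hk => ⟨h hk.1, hk.2⟩⟩

open Classical in
theorem split (F : Finset ι) (L : ℕ) {X : (σ → TR n) → Prop} (hX : Cons {y | X y}) :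
    pr {y | (∀ j, tt n ^ L ∣ D.g F (tm y) j) ∧ X y} = ∑ F' with D.Fl F F',
      pr {y | (D.EvH L F' (tm y) ∧ ∀ i ∈ F \ F', tt n ^ L ∣ mon (D.d i) (tm y)) ∧ X y} := by
  have key : ∀ F' (x : σ → TR n), D.Fl F F' → D.EvH L F' x →
      (∀ i ∈ F \ F', tt n ^ L ∣ mon (D.d i) x) →
      F' = F.filter fun i => D.c i ∈ D.W (D.act L F x) := fun F' x h1 h2 h3 => by
    ext i
    rw [Finset.mem_filter, D.act_eq h1.1 h3]
    exact ⟨fun h => ⟨h1.1 h, h2.2 i h⟩, fun h => h1.2 i h.1 (D.W_mono (fun k hk => hk.1) h.2)⟩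
  rw [← pr_sum _ (fun F' _ => ((D.cons_EvH cfm_tm L F').and (cons_forall_mem _ fun i _ =>
    (cfm_mon _ cfm_tm).cons_dvd _)).and hX) fun F₁ h₁ F₂ h₂ y a₁ a₂ =>
      (key _ _ (Finset.mem_filter.1 h₁).2 a₁.1.1 a₁.1.2).trans
        (key _ _ (Finset.mem_filter.1 h₂).2 a₂.1.1 a₂.1.2).symm]
  refine pr_congr fun y => ⟨fun h => ?_, fun ⟨F', h1, h2, h3⟩ =>
    ⟨fun j => (D.g_dvd (Finset.mem_filter.1 h1).2.1 h2.2 j).2 (h2.1.1 j), h3⟩⟩
  have h1 := Finset.filter_subset (fun i => D.c i ∈ D.W (D.act L F (tm y))) F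
  have h2 : ∀ i ∈ F \ F.filter fun i => D.c i ∈ D.W (D.act L F (tm y)),
      tt n ^ L ∣ mon (D.d i) (tm y) := fun i hi => by_contra fun e =>
    (Finset.mem_sdiff.1 hi).2 (Finset.mem_filter.2 ⟨(Finset.mem_sdiff.1 hi).1,
      D.mem_W ⟨(Finset.mem_sdiff.1 hi).1, e⟩⟩)
  refine ⟨_, Finset.mem_filter.2 ⟨Finset.mem_univ _, h1, fun i hi e => Finset.mem_filter.2
    ⟨hi, D.W_le (fun k hk => (Finset.mem_filter.1 hk).2) e⟩⟩,
    ⟨⟨fun j => (D.g_dvd h1 h2 j).1 (h.1 j), fun i hi => ?_⟩, h2⟩, h.2⟩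
  rw [← D.act_eq h1 h2]
  exact (Finset.mem_filter.1 hi).2

theorem a_ne {i : ι} {s : σ} (h : D.d i s ≠ 0) : D.a i s ≠ 0 :=
  ((Nat.pos_of_ne_zero h).trans_le (D.d_le _ _)).ne'

theorem EvH_congr (h : ∀ i ∈ F, ∀ s, D.a i s ≠ 0 → x s = x' s) (h1 : D.EvH L F x) :
    D.EvH L F x' := by
  have e1 : ∀ j, D.g F x j = D.g F x' j := fun j =>
    Finset.sum_congr rfl fun i hi => by rw [mon_congr (h i hi)]
  have e2 : D.act L F x = D.act L F x' := Set.ext fun k => and_congr_right fun hk => by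
    rw [mon_congr fun s hs => h k hk s (D.a_ne hs)]
  exact ⟨fun j => e1 j ▸ h1.1 j, e2 ▸ h1.2⟩

theorem EvM_congr {Θ : (ι → ℂ) → Prop} (h : ∀ i ∈ F, ∀ s, D.a i s ≠ 0 → x s = x' s)
    (h1 : D.EvM F Θ x) : D.EvM F Θ x' := by
  have e1 : ∀ i ∈ F, mon (D.d i) x = mon (D.d i) x' := fun i hi =>
    mon_congr fun s hs => h i hi s (D.a_ne hs)
  have e2 : D.zc F x = D.zc F x' := funext fun i => by
    by_cases hi : i ∈ F
    · rw [zc, zc, e1 i hi]
    · rw [zc, zc, if_neg hi, if_neg hi]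
  exact ⟨fun i hi => e1 i hi ▸ h1.1 i hi, e2 ▸ h1.2⟩

theorem pr_HB (F F' : Finset ι) {Θ : (ι → ℂ) → Prop} (hΘ : Cons {z | Θ z}) (n : ℕ) :
    pr {y : σ → TR n | D.EvH n F' (tm y) ∧ D.EvM (F \ F') Θ (tm y)} =
      D.H F' n * D.B (F \ F') Θ n :=
  pr_mul (fun s => ∃ i ∈ F', D.a i s ≠ 0) (D.cons_EvH cfm_tm n F') (D.cons_EvM cfm_tm _ hΘ)
    (fun x y h => D.EvH_congr fun i hi s hs => by rw [tm, tm, h s ⟨i, hi, hs⟩])
    fun x y h => D.EvM_congr fun i hi s hs => by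
      rw [tm, tm, h s fun ⟨k, hk, e⟩ => (Finset.mem_sdiff.1 hi).2 (D.dis k i s e hs ▸ hk)]

/-- The top coefficients of the equations. -/
noncomputable def top (F : Finset ι) (x : σ → TR n) (j : J) : ℂ := cf n n (D.g F x j)

theorem top_eq (F : Finset ι) (x : σ → TR n) :
    D.top F x = ∑ i ∈ F, cf n n (mon (D.a i) x) • D.c i := funext fun j => by
  simp [top, g, mul_comm]

theorem cfm_top (F : Finset ι) : CFM fun y : σ → TR n => D.top F (tm y) :=
  CFM.pi fun j => (D.cfm_g cfm_tm F j).app (cf n n)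

/-- The flows move the top coefficients through the span of the active vectors. -/
theorem pr_top {V : Type} [AddCommGroup V] [Module ℂ V] [FiniteDimensional ℂ V]
    (π : (J → ℂ) →ₗ[ℂ] V) (h : F' ⊆ F) {Θ : (ι → ℂ) → Prop} (hΘ : Cons {z | Θ z}) :
    pr {y : σ → TR n | π (D.top F (tm y)) = 0 ∧ D.EvH n F' (tm y) ∧ D.EvM (F \ F') Θ (tm y)} =
      lefInv ^ Module.finrank ℂ ((D.W F').map π) * pr {y : σ → TR n |
        π (D.top F (tm y)) ∈ (D.W F').map π ∧ D.EvH n F' (tm y) ∧ D.EvM (F \ F') Θ (tm y)} := by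
  have c0 := (D.cfm_top (n := n) F).app π
  have c1 := (D.cons_EvH (n := n) cfm_tm n F').and (D.cons_EvM cfm_tm (F \ F') hΘ)
  have c2 := fun S : Finset ι => D.cons_act (n := n) cfm_tm n F' (· = S)
  have part : ∀ Φ : (σ → TR n) → Prop, Cons {y | Φ y} → pr {y | Φ y} =
      ∑ S : Finset ι, pr {y | Φ y ∧ D.act n F' (tm y) = S} := fun Φ hΦ => by
    rw [← pr_sum _ (fun S _ => hΦ.and (c2 S)) fun S _ S' _ y h1 h2 =>
      Finset.coe_injective (h1.2.symm.trans h2.2)]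
    exact pr_congr fun y => ⟨fun hy => ⟨(D.act n F' (tm y)).toFinite.toFinset, Finset.mem_univ _, hy,
      by simp⟩, fun ⟨_, _, hy⟩ => hy.1⟩
  rw [part _ (c0.cons_zero.and c1), part (fun y => π (D.top F (tm y)) ∈ (D.W F').map π ∧ _)
    (((cons_submodule ((D.W F').map π)).preimage c0).and c1), Finset.mul_sum]
  refine Finset.sum_congr rfl fun S _ => ?_
  by_cases hS : ∃ y : σ → TR n, D.EvH n F' (tm y) ∧ D.act n F' (tm y) = S
  swap
  · have e : ∀ Φ : (σ → TR n) → Prop, pr {y | (Φ y ∧ D.EvH n F' (tm y) ∧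
        D.EvM (F \ F') Θ (tm y)) ∧ D.act n F' (tm y) = S} = 0 := fun Φ =>
      (congrArg pr (eq_empty_of_forall_notMem fun y hy => hS ⟨y, hy.1.2.1, hy.2⟩)).trans pr_empty
    exact (e _).trans ((congrArg _ (e _)).trans (mul_zero _)).symm
  obtain ⟨y₀, a1, a2⟩ := hS
  have a3 : D.W F' = D.W S :=
    le_antisymm (D.W_le (a2 ▸ a1.2)) (D.W_mono (a2 ▸ fun k hk => hk.1))
  rw [a3, W, Submodule.map_span, ← image_comp]
  refine (pr_congr fun y => and_assoc).trans ((pr_vflow (c1.and (c2 S)) c0 _ S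
    fun k hk => ?_).trans (congrArg _ (pr_congr fun y => and_assoc.symm)))
  obtain ⟨v, v1, v2, v3⟩ := D.flow k n
  refine ⟨v, v1, fun y r ⟨⟨b1, b2⟩, b3⟩ => ?_⟩
  have b4 : k ∈ D.act n F' (tm y) := b3 ▸ hk
  obtain ⟨b5, b6, b7⟩ := v3 y r b4.2
  have b8 : ∀ i ≠ k, ∀ s, D.a i s ≠ 0 → tm y s = tm (y + r • v y) s := fun i hi s hs => by
    simp [tm, v2 y s (by_contra fun e => hi (D.dis i k s hs e))]
  have b9 : ∀ G : Finset ι, k ∈ G → ∀ j, D.g G (tm (y + r • v y)) j =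
      D.g G (tm y) j + (r * D.c k j) • tt n ^ n := fun G hG j => by
    rw [g, g, ← Finset.add_sum_erase _ _ hG, ← Finset.add_sum_erase _ _ hG, b5, smul_add, smul_smul,
      mul_comm, add_right_comm, Finset.sum_congr rfl fun i hi => by
        rw [← mon_congr (b8 i (Finset.ne_of_mem_erase hi))]]
  have b10 : D.act n F' (tm (y + r • v y)) = D.act n F' (tm y) :=
    Set.ext fun i => and_congr_right fun _ => by
      by_cases e : i = k
      · exact e ▸ iff_of_true b6 b4.2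
      · rw [mon_congr fun s hs => b8 i e s (D.a_ne hs)]
  refine ⟨⟨⟨⟨fun j => ?_, b10 ▸ b1.2⟩, D.EvM_congr (fun i hi => b8 i fun e =>
    (Finset.mem_sdiff.1 hi).2 (e ▸ b4.1)) b2⟩, b10.trans b3⟩, b7, ?_⟩
  · rw [b9 _ b4.1, Algebra.smul_def]
    exact (b1.1 j).add (dvd_mul_left _ _)
  · rw [Function.comp_apply, ← map_smul, ← map_add]
    exact congrArg π (funext fun j => by simp [top, b9 _ (h b4.1), cf_top])

open Classical in
theorem top_sub (h : F' ⊆ F) {y : σ → TR n} (h1 : ∀ i ∈ F \ F', tt n ^ n ∣ mon (D.d i) (tm y)) :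
    ∃ w ∈ D.W F', D.top F (tm y) =
      ∑ i ∈ F \ F', (if D.rig i then D.zc (F \ F') (tm y) i else 0) • D.c i + w := by
  refine ⟨_, sum_mem fun i hi => Submodule.smul_mem _ (cf n n (mon (D.a i) (tm y))) (D.mem_W hi), ?_⟩
  rw [D.top_eq, ← Finset.sum_sdiff h, Finset.sum_congr rfl fun i hi => ?_]
  congr 1
  split_ifs with hr
  · rw [zc, if_pos hi, (D.h1 i hr).1]
  · obtain ⟨s, -, e⟩ := D.h2 i hr
    obtain ⟨μ, hμ⟩ := h1 i hi
    rw [e, mon_add, mon_single, hμ, mul_assoc, cf_mul le_rfl]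
    simp [tm, (eps_eq_zero (tt n)).2 dvd_rfl]

open Classical in
/-- The condition on the new top coefficients. -/
def Th (F F' : Finset ι) (z : ι → ℂ) : Prop :=
  (∑ i ∈ F \ F', (if D.rig i then z i else 0) • D.c i ∈ D.W F') ∧
    ∀ i ∈ F, D.c i ∈ D.W (F' ∪ {k | z k ≠ 0})

theorem cons_Th2 (F F' : Finset ι) : Cons {z : ι → ℂ | ∀ i ∈ F, D.c i ∈ D.W (F' ∪ {k | z k ≠ 0})} :=
  cons_pattern (fun k => (CFM.id.apply k).cons_zero.not) fun S => ∀ i ∈ F, D.c i ∈ D.W (F' ∪ S)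

theorem cons_Th (F F' : Finset ι) : Cons {z | D.Th F F' z} :=
  ((cons_submodule (D.W F')).preimage (CFM.sum _ fun i _ => CFM.smul (by
    split_ifs
    exacts [(CFM.id.apply i).cf, CF.const _]) (CFM.const _))).and (D.cons_Th2 F F')

open Classical in
theorem step (F : Finset ι) (n : ℕ) : D.H F (n + 1) = ∑ F' with D.Fl F F',
    lefInv ^ D.rk F' * (D.H F' n * D.B (F \ F') (D.Th F F') n) := by
  have h0 : D.H F (n + 1) = pr {y : σ → TR n | (∀ j, tt n ^ n ∣ D.g F (tm y) j) ∧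
      D.EvH (n + 1) F (tm y)} := by
    rw [pr_congr fun y => and_iff_right_of_imp fun h j => (pow_dvd_pow _ n.le_succ).trans (h.1 j),
      ← pr_trunc n.le_succ (D.cons_EvH cfm_tm (n + 1) F)]
    refine pr_congr fun y => ?_
    have e : ∀ a, mon a (tm fun s => Link.trunc n.le_succ (y s)) =
        Link.trunc n.le_succ (mon a (tm y)) := fun a => by
      simp only [map_mon, tm, map_mul, trunc_tt]
      rfl
    simp only [EvH, act, g, e, ← map_smul, ← map_sum, Link.dvd_trunc n.le_succ le_rfl]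
  rw [h0, D.split F n (D.cons_EvH cfm_tm _ F)]
  refine Finset.sum_congr rfl fun F' hF => ?_
  have h1 := (Finset.mem_filter.1 hF).2.1
  rw [← D.pr_HB F F' (D.cons_Th F F')]
  have h2 := D.pr_top (n := n) LinearMap.id h1 (D.cons_Th2 F F')
  rw [Submodule.map_id] at h2
  refine (pr_congr fun y => ?_).trans (h2.trans (congrArg _ (pr_congr fun y => ?_)))
  · rw [EvM, ← and_assoc (a := D.EvH n F' _), and_left_comm]
    refine and_congr_right fun ⟨a1, a2⟩ => and_congr ?_ (forall₂_congr fun i _ => ?_)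
    · exact (forall_congr' fun j => dvd_succ_iff ((D.g_dvd h1 a2 j).2 (a1.1 j))).trans
        funext_iff.symm
    · rw [le_antisymm (D.W_mono (S := D.act (n + 1) F (tm y))
        (S' := F' ∪ {k | D.zc (F \ F') (tm y) k ≠ 0}) fun k hk => ?_) (D.W_le fun k hk => ?_)]
      · refine or_iff_not_imp_left.2 fun e => ?_
        have a3 := Finset.mem_sdiff.2 ⟨hk.1, e⟩
        rw [mem_ofPred_eq, zc, if_pos a3]
        exact mt (dvd_succ_iff (a2 k a3)).2 hk.2
      · rcases hk with hk | hk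
        · exact D.W_mono (fun r hr => And.intro (h1 hr.1) fun e =>
            hr.2 ((pow_dvd_pow _ n.le_succ).trans e)) (a1.2 k hk)
        · have a3 : k ∈ F \ F' := by_contra fun e => hk (if_neg e)
          rw [mem_ofPred_eq, zc, if_pos a3] at hk
          exact D.mem_W ⟨(Finset.mem_sdiff.1 a3).1, mt (dvd_succ_iff (a2 k a3)).1 hk⟩
  · rw [and_left_comm, EvM, EvM, Th, LinearMap.id_apply]
    refine and_congr_right fun _ => and_left_comm.trans
      (and_congr_right fun a2 => and_congr_left' ?_)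
    obtain ⟨w, a3, a4⟩ := D.top_sub h1 a2
    rw [a4, Submodule.add_mem_iff_left _ a3]

end Dat

end Pool.Agent.P.MP_9321be_ag.DG
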